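import Pool.Agent.V8H11.JP.Ker
import Pool.Agent.Y459.OJ.Ten
import Pool.Agent.Y689.OJ.Corr

set_option autoImplicit false

/-!
# The corruption inequality for graphs with small degrees
-/

namespace Pool.Agent.V8H11.JP

open Finset
open Pool.Agent.Y516.OJ

variable {k : ℕ}

/-- functions and sets -/
def bs (k : ℕ) : (Fin k → Bool) ≃ Finset (Fin k) where
  toFun x := univ.filter fun i => x i = true
  invFun T i := decide (i ∈ T)
  left_inv x := by
    funext i
    rw [Bool.eq_iff_iff]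
    simp
  right_inv T := by
    ext i
    simp

theorem mem_bs (x : Fin k → Bool) (i : Fin k) : i ∈ bs k x ↔ x i = true := by
  show i ∈ univ.filter (fun i => x i = true) ↔ _
  simp

theorem wt_bs (α : ℝ) (x : Fin k → Bool) : wt α x = ww α (bs k x) := by
  unfold wt ww
  rw [prod_ite, prod_const, prod_const]
  congr 2
  congr 1
  ext i
  simp only [mem_filter, mem_univ, true_and, mem_sdiff]
  rw [mem_bs]

theorem ker_bool {S : Finset (Fin k × Fin k)} {Δ q : ℕ} {α p : ℝ}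
    (hΔ1 : ∀ i, (S.filter fun d => d.1 = i).card ≤ Δ)
    (hΔ2 : ∀ j, (S.filter fun d => d.2 = j).card ≤ Δ) (h0 : 0 ≤ α) (h1 : α ≤ 1) (hq : 2 ≤ q)
    (hpq : p.HolderConjugate q) (hα : α * q * Δ ≤ 4) {f g : (Fin k → Bool) → ℝ}
    (hf : ∀ x, 0 ≤ f x) (hg : ∀ y, 0 ≤ g y) :
    ∑ x, ∑ y, wt α x * wt α y * (f x * g y *
      ind (∀ d ∈ S, ¬ (x d.1 = true ∧ y d.2 = true))) ≤
      Real.exp (-(α ^ 2 * S.card / 8)) *
      ((∑ x, wt α x * f x ^ p) ^ (1 / p) * (∑ y, wt α y * g y ^ p) ^ (1 / p)) := by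
  have h := ker_sets hΔ1 hΔ2 h0 h1 hq hpq hα (f := fun T => f ((bs k).symm T))
    (g := fun T => g ((bs k).symm T)) (fun T => hf _) (fun T => hg _)
  have e1 : ∀ h : (Fin k → Bool) → ℝ, E1 α (fun T => h ((bs k).symm T)) = ∑ x, wt α x * h x := by
    intro h
    unfold E1
    rw [← (bs k).sum_comp]
    refine sum_congr rfl fun x _ => ?_
    show ww α (bs k x) * h ((bs k).symm (bs k x)) = _
    rw [wt_bs, Equiv.symm_apply_apply]
  have e2 := e1 (fun x => f x ^ p)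
  have e3 := e1 (fun x => g x ^ p)
  rw [e2, e3] at h
  refine le_trans (le_of_eq ?_) h
  unfold E1
  rw [← (bs k).sum_comp]
  refine sum_congr rfl fun x _ => ?_
  unfold Top E1
  show _ = ww α (bs k x) * (f ((bs k).symm (bs k x)) * ∑ T, ww α T * (g ((bs k).symm T) *
    ind (Disjoint (bs k x) (nb S T))))
  rw [mul_sum, mul_sum, ← (bs k).sum_comp]
  refine sum_congr rfl fun y _ => ?_
  rw [wt_bs, wt_bs, Equiv.symm_apply_apply, Equiv.symm_apply_apply]
  have e4 : ind (∀ d ∈ S, ¬ (x d.1 = true ∧ y d.2 = true)) =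
      ind (Disjoint (bs k x) (nb S (bs k y))) := by
    congr 1
    apply propext
    rw [disjoint_left]
    constructor
    · intro h i hi hi'
      rw [mem_bs] at hi
      obtain ⟨j, hj, hS⟩ := mem_nb.1 hi'
      rw [mem_bs] at hj
      exact h (i, j) hS ⟨hi, hj⟩
    · rintro h d hd ⟨h2, h3⟩
      exact h ((mem_bs x d.1).2 h2) (mem_nb.2 ⟨d.2, (mem_bs y d.2).2 h3, hd⟩)
  rw [e4]
  ring

/-- corruption for graphs with small degrees -/
theorem corr {u : ℕ} {S : Finset (Fin k × Fin k)} {Δ q : ℕ} {α p : ℝ}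
    (hΔ1 : ∀ i, (S.filter fun d => d.1 = i).card ≤ Δ)
    (hΔ2 : ∀ j, (S.filter fun d => d.2 = j).card ≤ Δ) (h0 : 0 ≤ α) (h1 : α ≤ 1) (hq : 2 ≤ q)
    (hpq : p.HolderConjugate q) (hα : α * q * Δ ≤ 4) (F G : Fam u k → Bool) :
    EE α (fun X Y => ind (F X = true) * ind (G Y = true) * ind (∀ d ∈ S, Disj X Y d)) ≤
      Real.exp (-(α ^ 2 * S.card / 8)) ^ u *
        (EE α fun X Y => ind (F X = true) * ind (G Y = true)) ^ (1 / p) := by
  have hwt : ∀ x : Fin k → Bool, 0 ≤ wt α x := fun x => by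
    rw [wt_bs]
    exact ww_nonneg h0 h1 _
  have hWt : ∀ X : Fam u k, 0 ≤ Wt α X := fun X => Finset.prod_nonneg fun e _ => hwt (X e)
  have hp0 : p ≠ 0 := hpq.ne_zero
  have key := Pool.Agent.Y459.OJ.Ten.ten (Fin k → Bool) (Fin k → Bool) (wt α) (wt α)
    (fun x y => ind (∀ d ∈ S, ¬ (x d.1 = true ∧ y d.2 = true))) p
    (Real.exp (-(α ^ 2 * S.card / 8))) hwt hwt (fun x y => Pool.Agent.Y689.OJ.ind_nonneg _)
    hpq.lt.le (Real.exp_pos _).le
    (fun f g hf hg => ker_bool hΔ1 hΔ2 h0 h1 hq hpq hα hf hg) u (fun X => ind (F X = true))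
    (fun Y => ind (G Y = true)) (fun X => Pool.Agent.Y689.OJ.ind_nonneg _)
    (fun Y => Pool.Agent.Y689.OJ.ind_nonneg _)
  have hL : EE α (fun X Y => ind (F X = true) * ind (G Y = true) * ind (∀ d ∈ S, Disj X Y d)) =
      ∑ x : Fin u → Fin k → Bool, ∑ y : Fin u → Fin k → Bool,
        (∏ e, wt α (x e)) * (∏ e, wt α (y e)) * (ind (F x = true) * ind (G y = true) *
          ∏ e, ind (∀ d ∈ S, ¬ (x e d.1 = true ∧ y e d.2 = true))) := by
    unfold EE Wt
    refine Finset.sum_congr rfl fun X _ => Finset.sum_congr rfl fun Y _ => ?_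
    have e : ind (∀ d ∈ S, Disj X Y d) =
        ind (∀ e, ∀ d ∈ S, ¬ (X e d.1 = true ∧ Y e d.2 = true)) :=
      Pool.Agent.Y689.OJ.ind_congr ⟨fun h e d hd => h d hd e, fun h d hd e => h e d hd⟩
    rw [Pool.Agent.Y689.OJ.prod_ind]
    show _ * (_ * _ * ind (∀ d ∈ S, Disj X Y d)) = _
    rw [e]
  rw [hL]
  refine key.trans (le_of_eq ?_)
  congr 1
  have hf : ∀ H : Fam u k → Bool, (∑ x : Fin u → Fin k → Bool, (∏ e, wt α (x e)) *
      ind (H x = true) ^ p) = ∑ X, Wt α X * ind (H X = true) := by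
    intro H
    refine Finset.sum_congr rfl fun X _ => ?_
    rw [Pool.Agent.Y689.OJ.ind_rpow _ hp0]
    rfl
  rw [hf F, hf G, ← Real.mul_rpow
    (Finset.sum_nonneg fun X _ => mul_nonneg (hWt X) (Pool.Agent.Y689.OJ.ind_nonneg _))
    (Finset.sum_nonneg fun X _ => mul_nonneg (hWt X) (Pool.Agent.Y689.OJ.ind_nonneg _)),
    Finset.sum_mul_sum]
  congr 1
  unfold EE
  refine Finset.sum_congr rfl fun X _ => Finset.sum_congr rfl fun Y _ => ?_
  ring

end Pool.Agent.V8H11.JP
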