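import Pool.Agent.V8H11.JP.Samp2

set_option autoImplicit false

/-!
# Iterated sampling: a short advice determines many queries and the contents which they read
-/

namespace Pool.Agent.V8H11.JP

open Finset

variable {k s w : ℕ} {A B : Type}

/-- The contents of the joint cells which are read in the first `l` steps on the query `d`:
`J X Y c` is the content of the cell `c`, and `nx d X v` is the number of the cell which is read
next, if the contents `v` have been read so far, or `none`, if no more cells are read. -/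
def tr (J : A → B → Fin s → Fin (2 ^ w))
    (nx : Fin k × Fin k → A → List (Fin (2 ^ w)) → Option (Fin s))
    (X : A) (Y : B) (d : Fin k × Fin k) : ℕ → List (Fin (2 ^ w))
  | 0 => []
  | l + 1 => (nx d X (tr J nx X Y d l)).elim (tr J nx X Y d l)
      fun c => tr J nx X Y d l ++ [J X Y c]

theorem exists_enum {T : Type} (F : Finset T) {n : ℕ} (h : F.card ≤ n) :
    ∃ σ : Fin n → Option T, ∀ z, z ∈ F ↔ ∃ i, σ i = some z := by
  classical
  refine ⟨fun i => if h : i.val < F.card then some (F.equivFin.symm ⟨i.val, h⟩ : T) else none,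
    fun z => ⟨fun hz => ?_, ?_⟩⟩
  · refine ⟨⟨(F.equivFin ⟨z, hz⟩).val, lt_of_lt_of_le (F.equivFin ⟨z, hz⟩).2 h⟩, ?_⟩
    simp only
    rw [dif_pos (F.equivFin ⟨z, hz⟩).2]
    simp
  · rintro ⟨i, hi⟩
    simp only at hi
    split_ifs at hi with h1
    rw [Option.some.injEq] at hi
    rw [← hi]
    exact (F.equivFin.symm ⟨i.val, h1⟩).2

/-- an element of the advice for a chunk with content `c` -/
def Hit {n : ℕ} (θ : ℕ) (G : Finset (Fin k × Fin k)) (a : Fin k × Fin k → Fin s)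
    (σ : Fin n → Option ((Fin s × Fin (k * k)) × Fin (2 ^ w))) (d : Fin k × Fin k)
    (c : Fin (2 ^ w)) : Prop :=
  ∃ i z, σ i = some z ∧ z.1.1 = a d ∧ (z.1.2 : ℕ) = rk G a d / θ ∧ z.2 = c

open Classical in
/-- the content according to the advice -/
noncomputable def look {n : ℕ} (θ : ℕ) (G : Finset (Fin k × Fin k)) (a : Fin k × Fin k → Fin s)
    (σ : Fin n → Option ((Fin s × Fin (k * k)) × Fin (2 ^ w))) (d : Fin k × Fin k) : Fin (2 ^ w) :=
  if h : ∃ c, Hit θ G a σ d c then Classical.choose h else ⟨0, by positivity⟩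

/-- One step. -/
theorem step (hk : 1 ≤ k) (G : Finset (Fin k × Fin k)) (a : Fin k × Fin k → Fin s)
    (f : Fin s → Fin (2 ^ w)) (ψ : Fin k × Fin k → ℝ) (D0 r κ τ : ℝ) (θ n : ℕ) (hψ : ∀ d, ψ d ≤ 1)
    (hd1 : ∀ i, ((G.filter fun d => d.1 = i).card : ℝ) ≤ D0)
    (hd2 : ∀ j, ((G.filter fun d => d.2 = j).card : ℝ) ≤ D0)
    (hκ : 0 < κ) (hD0 : 0 < D0) (hG : κ * k * D0 ≤ ∑ d ∈ G, ψ d) (hr0 : 0 < r) (hr1 : r ≤ 1)
    (hτ0 : 0 < τ) (hθ : 1 ≤ θ) (hrs : r * s ≤ k * τ) (hτ : 8 * k * Real.exp (-(2 * τ)) ≤ r * κ)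
    (hθ1 : θ * τ ≤ r * D0) (hθ2 : r * D0 ≤ 2 * θ * τ) (hn : 48 * k * τ / κ ≤ n) :
    ∃ σ : Fin n → Option ((Fin s × Fin (k * k)) × Fin (2 ^ w)), ∃ G' : Finset (Fin k × Fin k),
      (∀ d, d ∈ G' ↔ d ∈ G ∧ ∃ c, Hit θ G a σ d c) ∧
      (∀ i, ((G'.filter fun d => d.1 = i).card : ℝ) ≤ 4 * r * D0) ∧
      (∀ j, ((G'.filter fun d => d.2 = j).card : ℝ) ≤ 4 * r * D0) ∧
      κ / 8 * k * (4 * r * D0) ≤ ∑ d ∈ G', ψ d ∧
      ∀ d ∈ G', look θ G a σ d = f (a d) := by
  classical
  obtain ⟨V, hV, h1, h2, h3, h4⟩ := sample hk G a ψ D0 r κ τ θ hψ hd1 hd2 hκ hD0 hG hr0 hr1 hτ0 hθ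
    hrs hτ hθ1 hθ2
  have hVn : V.card ≤ n := by exact_mod_cast h4.trans hn
  have hGc : G.card ≤ k * k := by
    refine (card_le_univ G).trans (le_of_eq ?_)
    rw [Fintype.card_prod, Fintype.card_fin]
  have hidx : ∀ d ∈ G, rk G a d / θ < k * k := by
    intro d hd
    have h5 := rk_lt (a := a) hd
    have h6 : (G.filter fun e => a e = a d).card ≤ G.card := card_le_card (filter_subset _ _)
    have h7 : rk G a d / θ ≤ rk G a d := Nat.div_le_self _ _
    omega
  -- the table of the advice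
  obtain ⟨F, hF⟩ : ∃ F : Finset ((Fin s × Fin (k * k)) × Fin (2 ^ w)),
      F = (univ : Finset ((Fin s × Fin (k * k)) × Fin (2 ^ w))).filter fun z =>
        (z.1.1, (z.1.2 : ℕ)) ∈ V ∧ z.2 = f z.1.1 := ⟨_, rfl⟩
  have hFc : F.card ≤ n := by
    refine le_trans ?_ hVn
    rw [← card_image_of_injOn (f := fun z : (Fin s × Fin (k * k)) × Fin (2 ^ w) =>
      (z.1.1, (z.1.2 : ℕ))) (s := F)]
    · refine card_le_card fun z hz => ?_
      obtain ⟨y, hy, rfl⟩ := mem_image.1 hz
      rw [hF, mem_filter] at hy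
      exact hy.2.1
    · intro x hx y hy hxy
      rw [mem_coe, hF, mem_filter] at hx hy
      simp only [Prod.mk.injEq] at hxy
      have e1 : x.1 = y.1 := Prod.ext hxy.1 (Fin.ext hxy.2)
      refine Prod.ext e1 ?_
      rw [hx.2.2, hy.2.2, e1]
  obtain ⟨σ, hσ⟩ := exists_enum F hFc
  have hmem : ∀ z, (∃ i, σ i = some z) ↔ ((z.1.1, (z.1.2 : ℕ)) ∈ V ∧ z.2 = f z.1.1) := by
    intro z
    rw [← hσ z, hF, mem_filter]
    simp
  have hhit : ∀ d ∈ G, ∀ c, Hit θ G a σ d c ↔ ch θ G a d ∈ V ∧ c = f (a d) := by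
    intro d hd c
    constructor
    · rintro ⟨i, z, h5, h6, h7, h8⟩
      have h9 := (hmem z).1 ⟨i, h5⟩
      refine ⟨?_, ?_⟩
      · have h10 : ch θ G a d = (z.1.1, (z.1.2 : ℕ)) := by
          rw [h6, h7]
          rfl
        rw [h10]
        exact h9.1
      · rw [← h8, h9.2, h6]
    · rintro ⟨h5, h6⟩
      obtain ⟨i, hi⟩ := (hmem ((a d, ⟨rk G a d / θ, hidx d hd⟩), f (a d))).2 ⟨h5, rfl⟩
      exact ⟨i, _, hi, rfl, rfl, h6.symm⟩
  refine ⟨σ, sub θ G a V, ?_, h1, h2, h3, ?_⟩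
  · intro d
    unfold sub
    rw [mem_filter]
    constructor
    · rintro ⟨h5, h6⟩
      exact ⟨h5, f (a d), (hhit d h5 _).2 ⟨h6, rfl⟩⟩
    · rintro ⟨h5, c, h6⟩
      exact ⟨h5, ((hhit d h5 c).1 h6).1⟩
  · intro d hd
    unfold sub at hd
    rw [mem_filter] at hd
    have hex : ∃ c, Hit θ G a σ d c := ⟨f (a d), (hhit d hd.1 _).2 ⟨hd.2, rfl⟩⟩
    unfold look
    rw [dif_pos hex]
    exact ((hhit d hd.1 _).1 (Classical.choose_spec hex)).2

theorem exists_theta {x τ : ℝ} (hτ : 0 < τ) (hx : τ ≤ x) :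
    ∃ θ : ℕ, 1 ≤ θ ∧ θ * τ ≤ x ∧ x ≤ 2 * θ * τ := by
  have h1 : 1 ≤ x / τ := by
    rw [le_div_iff₀ hτ]
    linarith
  have h2 : 1 ≤ ⌊x / τ⌋₊ := by
    rw [Nat.one_le_floor_iff]
    exact h1
  refine ⟨⌊x / τ⌋₊, h2, ?_, ?_⟩
  · have h3 := Nat.floor_le (show 0 ≤ x / τ by linarith)
    rwa [le_div_iff₀ hτ] at h3
  · have h3 := Nat.lt_floor_add_one (x / τ)
    have h4 : (1 : ℝ) ≤ (⌊x / τ⌋₊ : ℝ) := by exact_mod_cast h2
    rw [div_lt_iff₀ hτ] at h3
    nlinarith

/-- **Iterated sampling.** -/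
theorem iter (hk : 1 ≤ k) (J : A → B → Fin s → Fin (2 ^ w))
    (nx : Fin k × Fin k → A → List (Fin (2 ^ w)) → Option (Fin s)) (c0 : Fin s)
    (ψ : A → B → Fin k × Fin k → ℝ) (hψ : ∀ X Y d, ψ X Y d ≤ 1) (y τ : ℝ) (t n : ℕ)
    (hy0 : 0 < y) (hy1 : y ≤ 1) (hτ0 : 0 < τ) (hys : y / 4 * s ≤ k * τ)
    (hτ : 8 * k * Real.exp (-(2 * τ)) ≤ y / 4 * ((1 / 8) ^ t / 4)) (hL : 4 * τ ≤ y ^ t * k)
    (hn : 48 * k * τ / ((1 / 8) ^ t / 4) ≤ n) : ∀ l ≤ t,
    ∃ (Adv : Type) (_ : Fintype Adv) (D : Adv → A → Finset (Fin k × Fin k))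
      (ct : Adv → A → Fin k × Fin k → List (Fin (2 ^ w))),
      Fintype.card Adv ≤ (s * (k * k) * 2 ^ w + 1) ^ (n * l) ∧
      (∀ v X d, (ct v X d).length ≤ l) ∧
      ∀ X Y, (k : ℝ) ^ 2 / 4 ≤ ∑ d, ψ X Y d → ∃ v,
        (∀ i, (((D v X).filter fun d => d.1 = i).card : ℝ) ≤ y ^ l * k) ∧
        (∀ j, (((D v X).filter fun d => d.2 = j).card : ℝ) ≤ y ^ l * k) ∧
        (1 / 8) ^ l / 4 * k * (y ^ l * k) ≤ ∑ d ∈ D v X, ψ X Y d ∧
        ∀ d ∈ D v X, ct v X d = tr J nx X Y d l := by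
  classical
  have hkR : (1 : ℝ) ≤ k := by exact_mod_cast hk
  have hk0 : (0 : ℝ) < k := by linarith
  intro l
  induction l with
  | zero =>
    intro _
    refine ⟨Unit, inferInstance, fun _ _ => univ, fun _ _ _ => [], by simp, fun _ _ _ => le_rfl, ?_⟩
    intro X Y h
    have h1 : ∀ i : Fin k, ((univ : Finset (Fin k × Fin k)).filter fun d => d.1 = i).card ≤ k := by
      intro i
      have h2 : ((univ : Finset (Fin k × Fin k)).filter fun d => d.1 = i).card =
          (((univ : Finset (Fin k × Fin k)).filter fun d => d.1 = i).image Prod.snd).card := by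
        rw [card_image_of_injOn]
        intro a ha b hb hab
        rw [mem_coe, mem_filter] at ha hb
        exact Prod.ext (ha.2.trans hb.2.symm) hab
      rw [h2]
      exact (card_le_univ _).trans (by rw [Fintype.card_fin])
    have h2 : ∀ i : Fin k, ((univ : Finset (Fin k × Fin k)).filter fun d => d.2 = i).card ≤ k := by
      intro i
      have h2 : ((univ : Finset (Fin k × Fin k)).filter fun d => d.2 = i).card =
          (((univ : Finset (Fin k × Fin k)).filter fun d => d.2 = i).image Prod.fst).card := by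
        rw [card_image_of_injOn]
        intro a ha b hb hab
        rw [mem_coe, mem_filter] at ha hb
        exact Prod.ext hab (ha.2.trans hb.2.symm)
      rw [h2]
      exact (card_le_univ _).trans (by rw [Fintype.card_fin])
    refine ⟨(), fun i => ?_, fun i => ?_, ?_, fun d _ => rfl⟩
    · rw [pow_zero, one_mul]
      exact_mod_cast h1 i
    · rw [pow_zero, one_mul]
      exact_mod_cast h2 i
    · rw [pow_zero, pow_zero]
      refine le_trans (le_of_eq ?_) h
      ring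
  | succ l ih =>
    intro hl
    obtain ⟨Adv, _, D, ct, hc, hlen, hmain⟩ := ih (by omega)
    have hyl : y ^ t * k ≤ y * (y ^ l * k) := by
      have h1 : y ^ t ≤ y ^ (l + 1) := pow_le_pow_of_le_one hy0.le hy1 hl
      have h2 : y ^ t * k ≤ y ^ (l + 1) * k := mul_le_mul_of_nonneg_right h1 hk0.le
      rw [pow_succ] at h2
      linarith
    obtain ⟨θ, hθ, hθ1, hθ2⟩ := exists_theta (x := y / 4 * (y ^ l * k)) hτ0 (by linarith)
    have hκl : (1 / 8 : ℝ) ^ t / 4 ≤ (1 / 8) ^ l / 4 := by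
      have h1 : (1 / 8 : ℝ) ^ t ≤ (1 / 8) ^ l :=
        pow_le_pow_of_le_one (by norm_num) (by norm_num) (by omega)
      linarith
    have hκ0 : (0 : ℝ) < (1 / 8) ^ t / 4 := by positivity
    have hκl0 : (0 : ℝ) < (1 / 8) ^ l / 4 := by positivity
    -- the new data
    refine ⟨Adv × (Fin n → Option ((Fin s × Fin (k * k)) × Fin (2 ^ w))), inferInstance,
      fun v X => (D v.1 X).filter fun d =>
        ∃ c, Hit θ (D v.1 X) (fun d => (nx d X (ct v.1 X d)).getD c0) v.2 d c,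
      fun v X d => (nx d X (ct v.1 X d)).elim (ct v.1 X d) fun _ => ct v.1 X d ++
        [look θ (D v.1 X) (fun d => (nx d X (ct v.1 X d)).getD c0) v.2 d],
      ?_, ?_, ?_⟩
    · rw [Fintype.card_prod, Fintype.card_fun, Fintype.card_option, Fintype.card_prod,
        Fintype.card_prod, Fintype.card_fin, Fintype.card_fin, Fintype.card_fin, Fintype.card_fin,
        Nat.mul_add, mul_one, pow_add]
      exact Nat.mul_le_mul_right _ hc
    · intro v X d
      simp only
      cases nx d X (ct v.1 X d) with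
      | none => exact (hlen v.1 X d).trans (Nat.le_succ l)
      | some c =>
        simp only [Option.elim_some]
        rw [List.length_append, List.length_singleton]
        have := hlen v.1 X d
        omega
    · intro X Y hXY
      obtain ⟨v, hv1, hv2, hv3, hv4⟩ := hmain X Y hXY
      obtain ⟨σ, G', hG', h1, h2, h3, h4⟩ := step hk (D v X)
        (fun d => (nx d X (ct v X d)).getD c0)
        (J X Y) (ψ X Y) (y ^ l * k) (y / 4) ((1 / 8) ^ l / 4) τ θ n (hψ X Y) hv1 hv2 hκl0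
        (by positivity) hv3 (by positivity) (by linarith) hτ0 hθ hys
        (hτ.trans (mul_le_mul_of_nonneg_left hκl (by positivity))) hθ1 hθ2
        ((div_le_div_of_nonneg_left (by positivity) hκ0 hκl).trans hn)
      have e1 : (D v X).filter (fun d =>
          ∃ c, Hit θ (D v X) (fun d => (nx d X (ct v X d)).getD c0) σ d c) = G' := by
        ext d
        rw [mem_filter, hG' d]
      have e2 : 4 * (y / 4) * (y ^ l * k) = y ^ (l + 1) * k := by
        rw [pow_succ]
        ring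
      rw [e2] at h1 h2 h3
      refine ⟨(v, σ), ?_, ?_, ?_, ?_⟩
      · simp only [e1]
        exact h1
      · simp only [e1]
        exact h2
      · simp only [e1]
        refine le_trans (le_of_eq ?_) h3
        rw [pow_succ (1 / 8 : ℝ) l]
        ring
      · intro d hd
        simp only [e1] at hd
        have h5 := h4 d hd
        have h6 := hv4 d ((hG' d).1 hd).1
        show (nx d X (ct v X d)).elim (ct v X d) (fun _ => ct v X d ++
          [look θ (D v X) (fun d => (nx d X (ct v X d)).getD c0) σ d]) =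
          (nx d X (tr J nx X Y d l)).elim (tr J nx X Y d l)
            fun c => tr J nx X Y d l ++ [J X Y c]
        rw [h5, h6]
        cases nx d X (tr J nx X Y d l) with
        | none => rfl
        | some c => rfl

end Pool.Agent.V8H11.JP
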