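import Pool.Agent.V8H11.JP.One
import Pool.Agent.V8H11.JP.Iter
import Pool.Agent.Y502.OJ.Dp

set_option autoImplicit false

/-!
# The core statement
-/

namespace Pool.Agent.V8H11.JP

open Finset
open Pool.Agent.Y516.OJ
open Pool.Agent.Y85.OJ (EE_nonneg ind_true ind_false ind_nonneg EE_mono EE_one)

/-! ### Coding of short lists -/

/-- the code of a list of length at most `t` -/
def enc {w : ℕ} (t : ℕ) (v : List (Fin (2 ^ w))) : Fin t → Option (Fin (2 ^ w)) := fun i => v[i.val]?

theorem enc_inj {w t : ℕ} {v v' : List (Fin (2 ^ w))} (h : v.length ≤ t) (h' : v'.length ≤ t)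
    (he : enc t v = enc t v') : v = v' := by
  refine List.ext_getElem? fun i => ?_
  by_cases hi : i < t
  · exact congrFun he ⟨i, hi⟩
  · rw [List.getElem?_eq_none (by omega), List.getElem?_eq_none (by omega)]

open Classical in
/-- the list with the given code -/
noncomputable def dec {w : ℕ} (t : ℕ) (e : Fin t → Option (Fin (2 ^ w))) : List (Fin (2 ^ w)) :=
  if h : ∃ v : List (Fin (2 ^ w)), v.length ≤ t ∧ enc t v = e then Classical.choose h else []

theorem dec_enc {w t : ℕ} {v : List (Fin (2 ^ w))} (h : v.length ≤ t) : dec t (enc t v) = v := by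
  have hex : ∃ v' : List (Fin (2 ^ w)), v'.length ≤ t ∧ enc t v' = enc t v := ⟨v, h, rfl⟩
  unfold dec
  rw [dif_pos hex]
  exact enc_inj (Classical.choose_spec hex).1 h (Classical.choose_spec hex).2

/-! ### Counting -/

theorem card_small {T : Type} [Fintype T] [DecidableEq T] (m : ℕ) (PP : Finset (Finset T))
    (h : ∀ D ∈ PP, D.card ≤ m) : PP.card ≤ (Fintype.card T + 1) ^ m := by
  have h1 : PP ⊆ (range (m + 1)).biUnion fun j => powersetCard j (univ : Finset T) := by
    intro D hD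
    rw [mem_biUnion]
    exact ⟨D.card, mem_range.2 (Nat.lt_succ_of_le (h D hD)),
      mem_powersetCard.2 ⟨subset_univ _, rfl⟩⟩
  refine (card_le_card h1).trans (card_biUnion_le.trans ?_)
  rw [add_pow]
  refine sum_le_sum fun j hj => ?_
  rw [card_powersetCard, card_univ, one_pow, mul_one]
  refine (Nat.choose_le_pow _ j).trans (Nat.le_mul_of_pos_right _ ?_)
  exact Nat.choose_pos (Nat.lt_succ_iff.1 (mem_range.1 hj))

theorem card_sigma_le {k b m : ℕ} {E : Type} [Fintype E] [Inhabited E]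
    (PP : Finset (Finset (Fin k × Fin k))) (h : ∀ D ∈ PP, D.card ≤ m) :
    Fintype.card (Σ D : PP, ((D.1 → E) × (D.1 → Fin (2 ^ b)))) ≤
      ((k * k + 1) * (Fintype.card E * 2 ^ b)) ^ m := by
  classical
  have hE : 1 ≤ Fintype.card E := Fintype.card_pos
  rw [Fintype.card_sigma]
  have h1 : ∀ D : PP, Fintype.card ((D.1 → E) × (D.1 → Fin (2 ^ b))) ≤
      (Fintype.card E * 2 ^ b) ^ m := by
    intro D
    rw [Fintype.card_prod, Fintype.card_fun, Fintype.card_fun, Fintype.card_fin,
      Fintype.card_coe, ← mul_pow]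
    exact Nat.pow_le_pow_right (Nat.mul_pos hE (by positivity)) (h D D.2)
  calc ∑ D : PP, Fintype.card ((D.1 → E) × (D.1 → Fin (2 ^ b)))
      ≤ ∑ _D : PP, (Fintype.card E * 2 ^ b) ^ m := sum_le_sum fun D _ => h1 D
    _ = PP.card * (Fintype.card E * 2 ^ b) ^ m := by
        rw [sum_const, card_univ, Fintype.card_coe, smul_eq_mul]
    _ ≤ (k * k + 1) ^ m * (Fintype.card E * 2 ^ b) ^ m := by
        refine Nat.mul_le_mul_right _ ?_
        have h2 := card_small m PP h
        rw [Fintype.card_prod, Fintype.card_fin] at h2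
        exact h2
    _ = _ := by rw [← mul_pow]

/-! ### The score of a query -/

/-- the query stops within `t` steps -/
def Stops {k s w u : ℕ} (J : Fam u k → Fam u k → Fin s → Fin (2 ^ w))
    (nx : Fin k × Fin k → Fam u k → List (Fin (2 ^ w)) → Option (Fin s)) (t : ℕ)
    (X Y : Fam u k) (d : Fin k × Fin k) : Prop := nx d X (tr J nx X Y d t) = none

/-- the answer is wrong -/
def Bad {k s w u : ℕ} (J : Fam u k → Fam u k → Fin s → Fin (2 ^ w))
    (nx : Fin k × Fin k → Fam u k → List (Fin (2 ^ w)) → Option (Fin s))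
    (query : Fin k × Fin k → List (Fin (2 ^ w)) → Prot (Fam u k) (Fam u k)) (t : ℕ)
    (X Y : Fam u k) (d : Fin k × Fin k) : Prop :=
  ¬ ((query d (tr J nx X Y d t)).run X Y = true ↔ ¬ Disj X Y d)

/-- the score -/
noncomputable def score {k s w u : ℕ} (J : Fam u k → Fam u k → Fin s → Fin (2 ^ w))
    (nx : Fin k × Fin k → Fam u k → List (Fin (2 ^ w)) → Option (Fin s))
    (query : Fin k × Fin k → List (Fin (2 ^ w)) → Prot (Fam u k) (Fam u k)) (t : ℕ)
    (X Y : Fam u k) (d : Fin k × Fin k) : ℝ :=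
  ind (Stops J nx t X Y d) - 2 * ind (Stops J nx t X Y d ∧ ¬ Disj X Y d) -
    1000 * ind (Stops J nx t X Y d ∧ Bad J nx query t X Y d)

theorem score_le {k s w u : ℕ} (J : Fam u k → Fam u k → Fin s → Fin (2 ^ w))
    (nx : Fin k × Fin k → Fam u k → List (Fin (2 ^ w)) → Option (Fin s))
    (query : Fin k × Fin k → List (Fin (2 ^ w)) → Prot (Fam u k) (Fam u k)) (t : ℕ)
    (X Y : Fam u k) (d : Fin k × Fin k) : score J nx query t X Y d ≤ 1 := by
  unfold score
  have h1 := ind_nonneg (Stops J nx t X Y d ∧ ¬ Disj X Y d)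
  have h2 := ind_nonneg (Stops J nx t X Y d ∧ Bad J nx query t X Y d)
  have h3 : ind (Stops J nx t X Y d) ≤ 1 := by
    unfold ind
    split_ifs <;> norm_num
  linarith

theorem ind_and_left {P Q : Prop} (hP : P) : ind (P ∧ Q) = ind Q := by
  congr 1
  exact propext ⟨fun h => h.2, fun h => ⟨hP, h⟩⟩

/-- the sum of the scores on a set of queries which stop -/
theorem sum_score {k s w u : ℕ} {J : Fam u k → Fam u k → Fin s → Fin (2 ^ w)}
    {nx : Fin k × Fin k → Fam u k → List (Fin (2 ^ w)) → Option (Fin s)}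
    {query : Fin k × Fin k → List (Fin (2 ^ w)) → Prot (Fam u k) (Fam u k)} {t : ℕ}
    {X Y : Fam u k} (D : Finset (Fin k × Fin k)) (h : ∀ d ∈ D, Stops J nx t X Y d) :
    ∑ d ∈ D, score J nx query t X Y d = D.card - 2 * (nInt D X Y : ℝ) -
      1000 * (nErr D (fun d => query d (tr J nx X Y d t)) X Y : ℝ) := by
  classical
  have e1 : (nInt D X Y : ℝ) = ∑ d ∈ D, ind (¬ Disj X Y d) := by
    unfold nInt
    rw [Pool.Agent.Y502.OJ.card_eq_sum]
  have e2 : (nErr D (fun d => query d (tr J nx X Y d t)) X Y : ℝ) =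
      ∑ d ∈ D, ind (Bad J nx query t X Y d) := by
    unfold nErr
    rw [Pool.Agent.Y502.OJ.card_eq_sum]
    rfl
  have e3 : (D.card : ℝ) = ∑ _d ∈ D, (1 : ℝ) := by simp
  rw [e1, e2, e3, mul_sum, mul_sum, ← sum_sub_distrib, ← sum_sub_distrib]
  refine sum_congr rfl fun d hd => ?_
  unfold score
  rw [ind_true (h d hd), ind_and_left (h d hd), ind_and_left (h d hd)]

end Pool.Agent.V8H11.JP
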