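import Pool.Agent.Y516.OJ.Stm

set_option autoImplicit false

/-!
# Set intersection with several probes to joint cells: definitions
-/

namespace Pool.Agent.V8H11.JP

open Finset
open Pool.Agent.Y516.OJ (Prot ind)

/-- A (deterministic) data structure for families of `2 * k` subsets of a universe with `u`
elements, which are given as two halves of `k` sets, with `s` joint cells of `w` bits. -/
structure ProbeDS (k u w s : ℕ) where
  /-- the contents of the joint cells, which are arbitrary functions of the whole family -/
  cell : (Fin k → Finset (Fin u)) → (Fin k → Finset (Fin u)) → Fin s → Fin (2 ^ w)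
  /-- `next i j F v` is the joint cell which is probed next on the query `(i, j)`, if the first half
  of the family is `F` and the contents of the joint cells which have been probed so far are `v`;
  `none` means that no more joint cells are probed. -/
  next : Fin k → Fin k → (Fin k → Finset (Fin u)) → List (Fin (2 ^ w)) → Option (Fin s)
  /-- `query i j v` is the communication protocol between a player who knows the first half of the
  family and a player who knows the second half, which answers the query `(i, j)`, if the contents
  of the probed joint cells are `v` -/
  query : Fin k → Fin k → List (Fin (2 ^ w)) → Prot (Fin k → Finset (Fin u)) (Fin k → Finset (Fin u))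

namespace ProbeDS

variable {k u w s : ℕ} (D : ProbeDS k u w s) (F G : Fin k → Finset (Fin u)) (i j : Fin k)

/-- the contents of the joint cells which are probed in the first `l` steps on the query `(i, j)`,
for the family with the halves `F` and `G` -/
def reads : ℕ → List (Fin (2 ^ w))
  | 0 => []
  | l + 1 => (D.next i j F (reads l)).elim (reads l) fun c => reads l ++ [D.cell F G c]

/-- at most `t` joint cells are probed on the query `(i, j)` -/
def Stops (t : ℕ) : Prop := D.next i j F (D.reads F G i j t) = none

/-- the answer to the query `(i, j)` (if at most `t` joint cells are probed) -/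
def answer (t : ℕ) : Bool := (D.query i j (D.reads F G i j t)).run F G

end ProbeDS

/-- The random data structure `D` (which is `D ω` with probability `p ω`) decides with protocols
of at most `b` bits, for all families of total size at most `N` and all queries `(i, j)`, whether
the sets `F i` and `G j` intersect: the probability that at most `t` joint cells are probed and the
answer is wrong is at most `1 / (2 * 10 ^ 6)`, and if `F i` and `G j` are disjoint, then at most `t`
joint cells are probed with probability at least `1 / 2`. -/
def SolvesProbes {k u w s : ℕ} (b N t : ℕ) {Ω : Type} [Fintype Ω] (p : Ω → ℝ)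
    (D : Ω → ProbeDS k u w s) : Prop :=
  (∀ ω, 0 ≤ p ω) ∧ ∑ ω, p ω = 1 ∧ (∀ ω i j v, ((D ω).query i j v).depth ≤ b) ∧
    ∀ F G : Fin k → Finset (Fin u), ∑ i, (F i).card + ∑ j, (G j).card ≤ N → ∀ i j : Fin k,
      (∑ ω, p ω * ind ((D ω).Stops F G i j t ∧
        ¬ ((D ω).answer F G i j t = true ↔ (F i ∩ G j).Nonempty)) ≤ 1 / (2 * 10 ^ 6)) ∧
      (¬ (F i ∩ G j).Nonempty → 1 / 2 ≤ ∑ ω, p ω * ind ((D ω).Stops F G i j t))

end Pool.Agent.V8H11.JP
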