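import Mathlib

set_option autoImplicit false

/-!
# A bilinear inequality for the disjointness kernel of a graph with small degrees: combinatorics
-/

namespace Pool.Agent.V8H11.JP

open Finset

variable {k : ℕ}

/-- the left neighbours of the right vertices in `T` -/
def nb (S : Finset (Fin k × Fin k)) (T : Finset (Fin k)) : Finset (Fin k) :=
  (S.filter fun d => d.2 ∈ T).image Prod.fst

/-- the number of edges with left end outside of `W` and right end in `J` -/
def ed (S : Finset (Fin k × Fin k)) (J W : Finset (Fin k)) : ℕ :=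
  (S.filter fun d => d.1 ∉ W ∧ d.2 ∈ J).card

theorem mem_nb {S : Finset (Fin k × Fin k)} {T : Finset (Fin k)} {i : Fin k} :
    i ∈ nb S T ↔ ∃ j ∈ T, (i, j) ∈ S := by
  unfold nb
  rw [mem_image]
  constructor
  · rintro ⟨d, hd, rfl⟩
    exact ⟨d.2, (mem_filter.1 hd).2, (mem_filter.1 hd).1⟩
  · rintro ⟨j, hj, h⟩
    exact ⟨(i, j), mem_filter.2 ⟨h, hj⟩, rfl⟩

theorem nb_insert (S : Finset (Fin k × Fin k)) (j : Fin k) (T : Finset (Fin k)) :
    nb S (insert j T) = nb S {j} ∪ nb S T := by
  ext i
  simp only [mem_union, mem_nb, mem_insert, mem_singleton]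
  constructor
  · rintro ⟨j', rfl | h, h'⟩
    · exact Or.inl ⟨j', rfl, h'⟩
    · exact Or.inr ⟨j', h, h'⟩
  · rintro (⟨j', rfl, h'⟩ | ⟨j', h, h'⟩)
    · exact ⟨j', Or.inl rfl, h'⟩
    · exact ⟨j', Or.inr h, h'⟩

theorem nb_empty (S : Finset (Fin k × Fin k)) : nb S ∅ = ∅ := by
  ext i
  simp [mem_nb]

theorem card_union_sdiff (A B W : Finset (Fin k)) :
    ((A ∪ B) \ W).card = (A \ W).card + (B \ (W ∪ A)).card := by
  rw [← card_union_of_disjoint]
  · congr 1
    ext i
    simp only [mem_sdiff, mem_union]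
    tauto
  · rw [disjoint_left]
    intro i hi hi'
    simp only [mem_sdiff, mem_union] at hi hi'
    tauto

theorem ed_insert (S : Finset (Fin k × Fin k)) {j : Fin k} {J : Finset (Fin k)} (hj : j ∉ J)
    (W : Finset (Fin k)) : ed S (insert j J) W = ed S J W + (nb S {j} \ W).card := by
  have h1 : (nb S {j} \ W).card = (S.filter fun d => d.1 ∉ W ∧ d.2 = j).card := by
    rw [← card_image_of_injOn (f := Prod.fst) (s := S.filter fun d => d.1 ∉ W ∧ d.2 = j)]
    · congr 1
      ext i
      simp only [mem_sdiff, mem_nb, mem_singleton, mem_image, mem_filter]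
      constructor
      · rintro ⟨⟨j', rfl, h⟩, h'⟩
        exact ⟨(i, j'), ⟨h, h', rfl⟩, rfl⟩
      · rintro ⟨d, ⟨h1, h2, h3⟩, rfl⟩
        exact ⟨⟨d.2, h3, h1⟩, h2⟩
    · intro a ha b hb hab
      rw [mem_coe, mem_filter] at ha hb
      exact Prod.ext hab (ha.2.2.trans hb.2.2.symm)
  rw [h1]
  unfold ed
  rw [← card_union_of_disjoint]
  · congr 1
    ext d
    simp only [mem_filter, mem_union, mem_insert]
    tauto
  · rw [disjoint_left]
    intro d hd hd'
    rw [mem_filter] at hd hd'
    exact hj (hd'.2.2 ▸ hd.2.2)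

theorem ed_le (S : Finset (Fin k × Fin k)) {Δ : ℕ} (hΔ : ∀ i, (S.filter fun d => d.1 = i).card ≤ Δ)
    (J W R : Finset (Fin k)) : ed S J W ≤ ed S J (W ∪ R) + Δ * (R \ W).card := by
  have h1 : (S.filter fun d => d.1 ∈ R \ W).card ≤ Δ * (R \ W).card := by
    refine card_le_mul_card_image_of_maps_to (f := Prod.fst) (fun d hd => (mem_filter.1 hd).2) Δ ?_
    intro i _
    refine le_trans (card_le_card ?_) (hΔ i)
    intro d hd
    rw [mem_filter, mem_filter] at hd
    exact mem_filter.2 ⟨hd.1.1, hd.2⟩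
  refine le_trans (card_le_card ?_) ((card_union_le _ _).trans (Nat.add_le_add_left h1 _))
  intro d hd
  simp only [mem_filter, mem_union, mem_sdiff] at hd ⊢
  tauto

theorem ed_empty (S : Finset (Fin k × Fin k)) (W : Finset (Fin k)) : ed S ∅ W = 0 := by
  unfold ed
  simp

theorem ed_univ (S : Finset (Fin k × Fin k)) : ed S univ ∅ = S.card := by
  unfold ed
  simp

/-- the expectation over the random subset of `J` -/
noncomputable def EJ (α : ℝ) (J : Finset (Fin k)) (h : Finset (Fin k) → ℝ) : ℝ :=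
  ∑ T ∈ J.powerset, α ^ T.card * (1 - α) ^ (J \ T).card * h T

theorem EJ_insert (α : ℝ) {j : Fin k} {J : Finset (Fin k)} (hj : j ∉ J) (h : Finset (Fin k) → ℝ) :
    EJ α (insert j J) h = (1 - α) * EJ α J h + α * EJ α J fun T => h (insert j T) := by
  unfold EJ
  rw [sum_powerset_insert hj, mul_sum, mul_sum]
  congr 1
  · refine sum_congr rfl fun T hT => ?_
    have h1 : j ∉ T := fun h => hj (mem_powerset.1 hT h)
    rw [insert_sdiff_of_notMem _ h1, card_insert_of_notMem (fun h => hj (mem_sdiff.1 h).1)]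
    ring
  · refine sum_congr rfl fun T hT => ?_
    have h1 : j ∉ T := fun h => hj (mem_powerset.1 hT h)
    have h2 : insert j J \ insert j T = J \ T := by
      ext i
      simp only [mem_sdiff, mem_insert]
      constructor
      · rintro ⟨rfl | h3, h4⟩
        · exact absurd (Or.inl rfl) h4
        · exact ⟨h3, fun h5 => h4 (Or.inr h5)⟩
      · rintro ⟨h3, h4⟩
        refine ⟨Or.inr h3, ?_⟩
        rintro (rfl | h5)
        · exact hj h3
        · exact h4 h5
    rw [card_insert_of_notMem h1, h2]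
    ring

theorem EJ_mono {α : ℝ} (h0 : 0 ≤ α) (h1 : α ≤ 1) {J : Finset (Fin k)}
    {f g : Finset (Fin k) → ℝ} (h : ∀ T, f T ≤ g T) : EJ α J f ≤ EJ α J g := by
  unfold EJ
  refine sum_le_sum fun T _ => mul_le_mul_of_nonneg_left (h T) ?_
  have : 0 ≤ 1 - α := by linarith
  positivity

theorem EJ_mul (α c : ℝ) (J : Finset (Fin k)) (f : Finset (Fin k) → ℝ) :
    EJ α J (fun T => c * f T) = c * EJ α J f := by
  unfold EJ
  rw [mul_sum]
  exact sum_congr rfl fun T _ => by ring

theorem exp_small {z : ℝ} (h0 : 0 ≤ z) (h1 : z ≤ 1) : Real.exp (-z) ≤ 1 - z / 2 := by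
  have h2 : 1 + z ≤ Real.exp z := by linarith [Real.add_one_le_exp z]
  have h3 : Real.exp (-z) * Real.exp z = 1 := by rw [← Real.exp_add]; simp
  have h4 : 0 < Real.exp (-z) := Real.exp_pos _
  have h5 : Real.exp (-z) * (1 + z) ≤ 1 := by
    calc Real.exp (-z) * (1 + z) ≤ Real.exp (-z) * Real.exp z :=
          mul_le_mul_of_nonneg_left h2 h4.le
      _ = 1 := h3
  have h6 : 1 ≤ (1 - z / 2) * (1 + z) := by nlinarith
  have h7 : Real.exp (-z) * (1 + z) ≤ (1 - z / 2) * (1 + z) := h5.trans h6
  exact le_of_mul_le_mul_right h7 (by linarith)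

/-- (A) -/
theorem lemA {S : Finset (Fin k × Fin k)} {Δ : ℕ} {α lam : ℝ}
    (hΔ1 : ∀ i, (S.filter fun d => d.1 = i).card ≤ Δ)
    (hΔ2 : ∀ j, (S.filter fun d => d.2 = j).card ≤ Δ) (h0 : 0 ≤ α) (h1 : α ≤ 1) (hl : 0 ≤ lam)
    (hlΔ : lam * Δ ≤ 2) (hαΔ : α * Δ ≤ 2) (J : Finset (Fin k)) :
    ∀ W : Finset (Fin k), EJ α J (fun T => Real.exp (-(lam * (nb S T \ W).card))) ≤
      Real.exp (-(α * lam / 4 * ed S J W)) := by
  classical
  induction J using Finset.induction_on with
  | empty =>
    intro W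
    unfold EJ
    rw [powerset_empty, sum_singleton]
    simp [nb_empty, ed_empty]
  | insert j J hj ih =>
    intro W
    rw [EJ_insert α hj]
    have e1 : (fun T : Finset (Fin k) => Real.exp (-(lam * (nb S (insert j T) \ W).card))) =
        fun T => Real.exp (-(lam * (nb S {j} \ W).card)) *
          Real.exp (-(lam * (nb S T \ (W ∪ nb S {j})).card)) := by
      funext T
      rw [nb_insert, card_union_sdiff, ← Real.exp_add]
      congr 1
      push_cast
      ring
    rw [e1, EJ_mul]
    have i1 := ih W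
    have i2 := ih (W ∪ nb S {j})
    have hn : (nb S {j} \ W).card ≤ Δ := by
      refine (card_le_card sdiff_subset).trans ?_
      unfold nb
      refine card_image_le.trans (le_trans (card_le_card ?_) (hΔ2 j))
      intro d hd
      rw [mem_filter, mem_singleton] at hd
      exact mem_filter.2 hd
    have hnR : ((nb S {j} \ W).card : ℝ) ≤ Δ := by exact_mod_cast hn
    rw [ed_insert S hj W]
    obtain ⟨n, hn'⟩ : ∃ n : ℝ, n = ((nb S {j} \ W).card : ℝ) := ⟨_, rfl⟩
    have hn0 : 0 ≤ n := by rw [hn']; exact Nat.cast_nonneg _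
    rw [← hn'] at hnR
    push_cast
    rw [← hn']
    have h2 : (ed S J W : ℝ) ≤ ed S J (W ∪ nb S {j}) + Δ * n := by
      have h3 := ed_le S hΔ1 J W (nb S {j})
      rw [hn']
      exact_mod_cast h3
    have hΔ0 : (0 : ℝ) ≤ Δ := Nat.cast_nonneg _
    have h4 : Real.exp (-(α * lam / 4 * ed S J (W ∪ nb S {j}))) ≤
        Real.exp (-(α * lam / 4 * ed S J W)) * Real.exp (lam * n / 2) := by
      rw [← Real.exp_add]
      apply Real.exp_le_exp.2
      have h5 : α * lam / 4 * ed S J W ≤ α * lam / 4 * (ed S J (W ∪ nb S {j}) + Δ * n) :=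
        mul_le_mul_of_nonneg_left h2 (by positivity)
      have h6 : α * lam / 4 * (Δ * n) ≤ lam * n / 2 := by
        have h7 : (α * Δ) * (lam * n / 4) ≤ 2 * (lam * n / 4) :=
          mul_le_mul_of_nonneg_right hαΔ (by positivity)
        linarith
      linarith
    have hz0 : 0 ≤ lam * n / 2 := by positivity
    have hz1 : lam * n / 2 ≤ 1 := by
      have : lam * n ≤ lam * Δ := mul_le_mul_of_nonneg_left hnR hl
      linarith
    have h8 := exp_small hz0 hz1
    calc (1 - α) * EJ α J (fun T => Real.exp (-(lam * (nb S T \ W).card))) +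
          α * (Real.exp (-(lam * n)) *
            EJ α J fun T => Real.exp (-(lam * (nb S T \ (W ∪ nb S {j})).card)))
        ≤ (1 - α) * Real.exp (-(α * lam / 4 * ed S J W)) +
          α * (Real.exp (-(lam * n)) *
            (Real.exp (-(α * lam / 4 * ed S J W)) * Real.exp (lam * n / 2))) := by
          refine add_le_add (mul_le_mul_of_nonneg_left i1 (by linarith))
            (mul_le_mul_of_nonneg_left ?_ h0)
          exact mul_le_mul_of_nonneg_left (i2.trans h4) (Real.exp_pos _).le
      _ = Real.exp (-(α * lam / 4 * ed S J W)) * (1 - α + α * Real.exp (-(lam * n / 2))) := by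
          have h9 : Real.exp (-(lam * n)) * Real.exp (lam * n / 2) =
              Real.exp (-(lam * n / 2)) := by
            rw [← Real.exp_add]
            congr 1
            ring
          rw [← h9]
          ring
      _ ≤ Real.exp (-(α * lam / 4 * ed S J W)) * Real.exp (-(α * lam / 4 * n)) := by
          refine mul_le_mul_of_nonneg_left ?_ (Real.exp_pos _).le
          have h10 : 1 - α + α * Real.exp (-(lam * n / 2)) ≤ 1 - α * lam / 4 * n := by
            have h11 : α * Real.exp (-(lam * n / 2)) ≤ α * (1 - lam * n / 2 / 2) :=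
              mul_le_mul_of_nonneg_left h8 h0
            linarith
          have h12 := Real.add_one_le_exp (-(α * lam / 4 * n))
          linarith
      _ = Real.exp (-(α * lam / 4 * (ed S J W + n))) := by
          rw [← Real.exp_add]
          congr 1
          ring

end Pool.Agent.V8H11.JP
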