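import Pool.Agent.V8H11.JP.Main
import Pool.Agent.V8H11.JP.Defs
import Pool.Agent.Y516.OJ.PairFin

set_option autoImplicit false

/-!
# Set intersection with several probes to joint cells: from the main inequality to data structures
-/

namespace Pool.Agent.V8H11.JP

open Finset
open Pool.Agent.Y516.OJ
open Pool.Agent.Y85.OJ (ind_true ind_false)

/-- the size of the sets of the hard families -/
def MP (t w b l : ℕ) : ℕ := qP t w b l * LP t w l

/-- a parameter -/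
def bP (t w b l : ℕ) : ℕ := 60 * (8 ^ t * 8 ^ t * 8 ^ t) * ZP t w b l * t * tauP t l * YP t w l

theorem MP_eq (t w b l : ℕ) : MP t w b l = 10000 * bP t w b l * 4000 := by
  unfold MP bP qP LP
  ring

theorem bP_pos {t w b l : ℕ} (ht : 1 ≤ t) : 1 ≤ bP t w b l := by
  unfold bP ZP tauP YP
  have h8 : 0 < 8 ^ t := by positivity
  have : 0 < 60 * (8 ^ t * 8 ^ t * 8 ^ t) * (2 * l + 1 + (w + 1) * t + b) * t * (l + 2 * t + 4) *
      (4 * l + w + (l + 2 * t + 4) + 2) := by positivity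
  exact this

theorem rho_bound {M : ℕ} (hM : 40000000 ≤ M) :
    Real.exp (-((1 / (M : ℝ)) ^ 2 * ((M ^ 2 / 8 : ℕ) : ℝ) / 8)) ≤ 197 / 200 := by
  have hMR : (40000000 : ℝ) ≤ M := by exact_mod_cast hM
  have hM0 : (0 : ℝ) < M := by linarith
  have h1 : M ^ 2 ≤ (M ^ 2 / 8) * 8 + 7 := by omega
  have h2 : (M : ℝ) ^ 2 ≤ ((M ^ 2 / 8 : ℕ) : ℝ) * 8 + 7 := by exact_mod_cast h1
  obtain ⟨u, hu⟩ : ∃ u : ℝ, u = ((M ^ 2 / 8 : ℕ) : ℝ) := ⟨_, rfl⟩
  rw [← hu] at h2 ⊢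
  have h3 : (0.0156 : ℝ) ≤ (1 / (M : ℝ)) ^ 2 * u / 8 := by
    have h4 : (1 / (M : ℝ)) ^ 2 * u / 8 = u / (8 * M ^ 2) := by
      field_simp
    rw [h4, le_div_iff₀ (by positivity)]
    nlinarith
  have h5 : (1 + 0.0156 : ℝ) ≤ Real.exp 0.0156 := by
    have := Real.add_one_le_exp (0.0156 : ℝ)
    linarith
  calc Real.exp (-((1 / (M : ℝ)) ^ 2 * u / 8)) ≤ Real.exp (-0.0156) :=
        Real.exp_le_exp.2 (by linarith)
    _ = 1 / Real.exp 0.0156 := by rw [Real.exp_neg, one_div]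
    _ ≤ 1 / (1 + 0.0156) := one_div_le_one_div_of_le (by norm_num) h5
    _ ≤ 197 / 200 := by norm_num

/-- There is no efficient random data structure with few cells. -/
theorem no_small (t w b l k s N M : ℕ) (hM : M = MP t w b l) (ht : 1 ≤ t) (hk : 1 ≤ k)
    (hkl : k ≤ 2 ^ l) (hLk : LP t w l ≤ k) (hN : k * M ≤ 2 * N) (hs1 : 1 ≤ s)
    (hs : s ^ t * LP t w l ≤ (4 * tauP t l) ^ t * k ^ (t + 1))
    (Ω : Type) [Fintype Ω] (p : Ω → ℝ) (hp : ∀ ω, 0 ≤ p ω) (hp1 : ∑ ω, p ω = 1)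
    (J : Ω → Fam (M ^ 2 / 8) k → Fam (M ^ 2 / 8) k → Fin s → Fin (2 ^ w))
    (nx : Ω → Fin k × Fin k → Fam (M ^ 2 / 8) k → List (Fin (2 ^ w)) → Option (Fin s))
    (query : Ω → Fin k × Fin k → List (Fin (2 ^ w)) → Prot (Fam (M ^ 2 / 8) k) (Fam (M ^ 2 / 8) k))
    (hq : ∀ ω d v, (query ω d v).depth ≤ b)
    (h : ∀ X Y, tot X + tot Y ≤ N → ∀ d,
      (∑ ω, p ω * ind (Stops (J ω) (nx ω) t X Y d ∧ Bad (J ω) (nx ω) (query ω) t X Y d) ≤
        1 / (2 * 10 ^ 6)) ∧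
      (Disj X Y d → 1 / 2 ≤ ∑ ω, p ω * ind (Stops (J ω) (nx ω) t X Y d))) : False := by
  classical
  have hMb : M = 10000 * bP t w b l * 4000 := hM.trans (MP_eq t w b l)
  have hb1 := bP_pos (t := t) (w := w) (b := b) (l := l) ht
  have hM4 : 40000000 ≤ M := by omega
  have hMR : (40000000 : ℝ) ≤ M := by exact_mod_cast hM4
  have hM0 : (0 : ℝ) < M := by linarith
  have hkR : (1 : ℝ) ≤ k := by exact_mod_cast hk
  have hk0 : (0 : ℝ) < k := by linarith
  obtain ⟨α, hα⟩ : ∃ α : ℝ, α = 1 / (M : ℝ) := ⟨_, rfl⟩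
  have hα0 : 0 < α := by rw [hα]; positivity
  have hα1 : α ≤ 1 := by
    rw [hα, div_le_one hM0]
    linarith
  have hMqL : (qP t w b l : ℝ) * (LP t w l : ℝ) = M := by
    rw [hM]
    unfold MP
    push_cast
    ring
  have hαq : α * (qP t w b l : ℕ) * (LP t w l : ℕ) ≤ 4 := by
    rw [mul_assoc, hMqL, hα, one_div_mul_cancel hM0.ne']
    norm_num
  have hρ : Real.exp (-(α ^ 2 * ((M ^ 2 / 8 : ℕ) : ℝ) / 8)) ≤ 197 / 200 := by
    rw [hα]
    exact rho_bound hM4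
  have huα : ((M ^ 2 / 8 : ℕ) : ℝ) * (α * α) ≤ 1 / 8 := by
    have h1 : ((M ^ 2 / 8 : ℕ) : ℝ) ≤ (M : ℝ) ^ 2 / 8 := by
      have := @Nat.cast_div_le ℝ _ _ _ (M ^ 2) 8
      simpa using this
    have h2 : (M : ℝ) ^ 2 / 8 * (α * α) = 1 / 8 := by
      rw [hα]; field_simp
    calc ((M ^ 2 / 8 : ℕ) : ℝ) * (α * α) ≤ (M : ℝ) ^ 2 / 8 * (α * α) :=
          mul_le_mul_of_nonneg_right h1 (by positivity)
      _ = 1 / 8 := h2
  have htail : EE α (fun X Y : Fam (M ^ 2 / 8) k => ind (N < tot X + tot Y)) ≤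
      1 / (2 * 10 ^ 6) := by
    rw [hα]
    exact tail 1 (bP t w b l) 4000 M k N le_rfl hb1 (by norm_num) hMb hk hN
  -- the expected score of a query
  have hpt : ∀ (d : Fin k × Fin k) (X Y : Fam (M ^ 2 / 8) k),
      1 / 2 - 1 / 2000 + (-(3 / 2)) * ind (¬ Disj X Y d) + (-1003) * ind (N < tot X + tot Y) ≤
      ∑ ω, p ω * score (J ω) (nx ω) (query ω) t X Y d := by
    intro d X Y
    have e1 : ∑ ω, p ω * score (J ω) (nx ω) (query ω) t X Y d =
        ∑ ω, p ω * ind (Stops (J ω) (nx ω) t X Y d) -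
        2 * ∑ ω, p ω * ind (Stops (J ω) (nx ω) t X Y d ∧ ¬ Disj X Y d) -
        1000 * ∑ ω, p ω * ind (Stops (J ω) (nx ω) t X Y d ∧
          Bad (J ω) (nx ω) (query ω) t X Y d) := by
      rw [mul_sum, mul_sum, ← sum_sub_distrib, ← sum_sub_distrib]
      refine sum_congr rfl fun ω _ => ?_
      unfold score
      ring
    rw [e1]
    have hle1 : ∀ P : Ω → Prop, ∑ ω, p ω * ind (P ω) ≤ 1 := by
      intro P
      rw [← hp1]
      refine sum_le_sum fun ω _ => ?_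
      have h2 : ind (P ω) ≤ 1 := by
        unfold ind
        split_ifs <;> norm_num
      calc p ω * ind (P ω) ≤ p ω * 1 := mul_le_mul_of_nonneg_left h2 (hp ω)
        _ = p ω := mul_one _
    have hge0 : ∀ P : Ω → Prop, 0 ≤ ∑ ω, p ω * ind (P ω) := fun P =>
      sum_nonneg fun ω _ => mul_nonneg (hp ω) (ind_nonneg _)
    have g1 := hge0 (fun ω => Stops (J ω) (nx ω) t X Y d)
    have hmono : ∑ ω, p ω * ind (Stops (J ω) (nx ω) t X Y d ∧ ¬ Disj X Y d) ≤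
        ∑ ω, p ω * ind (Stops (J ω) (nx ω) t X Y d) := by
      refine sum_le_sum fun ω _ => mul_le_mul_of_nonneg_left ?_ (hp ω)
      by_cases h2 : Stops (J ω) (nx ω) t X Y d ∧ ¬ Disj X Y d
      · rw [ind_true h2, ind_true h2.1]
      · rw [ind_false h2]
        exact ind_nonneg _
    have g2 := hle1 (fun ω => Stops (J ω) (nx ω) t X Y d)
    have g3 := hle1 (fun ω => Stops (J ω) (nx ω) t X Y d ∧ Bad (J ω) (nx ω) (query ω) t X Y d)
    by_cases hsz : tot X + tot Y ≤ N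
    · obtain ⟨h1, h2⟩ := h X Y hsz d
      rw [ind_false (show ¬ N < tot X + tot Y by omega)]
      by_cases hd : Disj X Y d
      · have h3 := h2 hd
        have h4 : ∑ ω, p ω * ind (Stops (J ω) (nx ω) t X Y d ∧ ¬ Disj X Y d) = 0 := by
          refine sum_eq_zero fun ω _ => ?_
          rw [ind_false (fun h5 => h5.2 hd), mul_zero]
        rw [ind_false (not_not.mpr hd), h4]
        linarith
      · rw [ind_true hd]
        linarith
    · rw [ind_true (show N < tot X + tot Y by omega)]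
      have h3 := ind_nonneg (¬ Disj X Y d)
      linarith
  have hE : ∀ d : Fin k × Fin k, 3 / 10 ≤
      ∑ ω, p ω * EE α (fun X Y => score (J ω) (nx ω) (query ω) t X Y d) := by
    intro d
    have h1 := EE_mono (u := M ^ 2 / 8) hα0.le hα1 (hpt d)
    rw [Pool.Agent.Y502.OJ.EE_add, Pool.Agent.Y502.OJ.EE_add, EE_const, EE_mul, EE_mul,
      Pool.Agent.Y85.OJ.EE_sum] at h1
    have h2 : EE α (fun (X Y : Fam (M ^ 2 / 8) k) => ind (¬ Disj X Y d)) ≤ 1 / 8 :=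
      (Pool.Agent.Y502.OJ.EE_notDisj hα0.le hα1 d).trans huα
    refine le_trans ?_ h1
    linarith
  -- the choice of the random bits
  have hsum : 3 / 10 * (k : ℝ) ^ 2 ≤ ∑ ω, p ω *
      ∑ d, EE α (fun X Y => score (J ω) (nx ω) (query ω) t X Y d) := by
    have h1 : ∑ ω, p ω * ∑ d, EE α (fun X Y => score (J ω) (nx ω) (query ω) t X Y d) =
        ∑ d, ∑ ω, p ω * EE α (fun X Y => score (J ω) (nx ω) (query ω) t X Y d) := by
      rw [sum_comm]
      exact sum_congr rfl fun ω _ => by rw [mul_sum]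
    rw [h1]
    calc 3 / 10 * (k : ℝ) ^ 2 = ∑ _d : Fin k × Fin k, (3 / 10 : ℝ) := by
          simp
          ring
      _ ≤ _ := sum_le_sum fun d _ => hE d
  obtain ⟨ω, hω⟩ : ∃ ω, 3 / 10 * (k : ℝ) ^ 2 ≤
      ∑ d, EE α (fun X Y => score (J ω) (nx ω) (query ω) t X Y d) := by
    by_contra hne
    push Not at hne
    obtain ⟨ω₀, _, hω₀⟩ : ∃ ω ∈ (univ : Finset Ω), 0 < p ω := by
      by_contra hno
      push Not at hno
      have : ∑ ω, p ω ≤ 0 := Finset.sum_nonpos hno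
      linarith
    have h1 : ∑ ω, p ω * ∑ d, EE α (fun X Y => score (J ω) (nx ω) (query ω) t X Y d) <
        ∑ ω, p ω * (3 / 10 * (k : ℝ) ^ 2) :=
      sum_lt_sum (fun ω _ => mul_le_mul_of_nonneg_left (hne ω).le (hp ω))
        ⟨ω₀, mem_univ _, mul_lt_mul_of_pos_left (hne ω₀) hω₀⟩
    rw [← sum_mul, hp1, one_mul] at h1
    linarith
  -- the probability of large scores
  have hmb := main_bound t w b l k s (M ^ 2 / 8) ht hk hkl hLk hs α hα0 hα1 hαq hρ (J ω) (nx ω)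
    (query ω) (hq ω) ⟨0, by omega⟩
  have hT : ∀ X Y : Fam (M ^ 2 / 8) k, ∑ d, score (J ω) (nx ω) (query ω) t X Y d ≤
      (k : ℝ) ^ 2 / 4 + (3 / 4 * (k : ℝ) ^ 2) *
        ind ((k : ℝ) ^ 2 / 4 ≤ ∑ d, score (J ω) (nx ω) (query ω) t X Y d) := by
    intro X Y
    have h1 : ∑ d, score (J ω) (nx ω) (query ω) t X Y d ≤ (k : ℝ) ^ 2 := by
      calc ∑ d, score (J ω) (nx ω) (query ω) t X Y d ≤ ∑ _d : Fin k × Fin k, (1 : ℝ) :=
            sum_le_sum fun d _ => score_le _ _ _ _ _ _ _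
        _ = (k : ℝ) ^ 2 := by
            simp
            ring
    by_cases h2 : (k : ℝ) ^ 2 / 4 ≤ ∑ d, score (J ω) (nx ω) (query ω) t X Y d
    · rw [ind_true h2]
      linarith
    · rw [ind_false h2]
      push Not at h2
      linarith
  have h1 := EE_mono (u := M ^ 2 / 8) hα0.le hα1 hT
  rw [Pool.Agent.Y502.OJ.EE_add, EE_const, EE_mul] at h1
  have h2 : EE α (fun X Y : Fam (M ^ 2 / 8) k =>
      ∑ d, score (J ω) (nx ω) (query ω) t X Y d) =
      ∑ d, EE α (fun X Y => score (J ω) (nx ω) (query ω) t X Y d) :=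
    Pool.Agent.Y502.OJ.EE_sum α univ _
  rw [h2] at h1
  have h3 : 3 / 4 * (k : ℝ) ^ 2 * EE α (fun X Y : Fam (M ^ 2 / 8) k =>
      ind ((k : ℝ) ^ 2 / 4 ≤ ∑ d, score (J ω) (nx ω) (query ω) t X Y d)) ≤
      3 / 4 * (k : ℝ) ^ 2 * (1 / 32) := mul_le_mul_of_nonneg_left hmb (by positivity)
  have hk2 : 0 < (k : ℝ) ^ 2 := by positivity
  linarith

/-! ### The numerical form -/

theorem ML_bound {t w b l : ℕ} (ht : 1 ≤ t) (hw : 1 ≤ w) :
    MP t w b l * LP t w l ≤ 10 ^ (7 * t + 20) * (b + w + l) * (w + l) ^ 4 := by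
  obtain ⟨v, hv⟩ : ∃ v, v = w + l := ⟨_, rfl⟩
  have hv1 : 1 ≤ v := by omega
  have htv : 1 ≤ t * v := Nat.mul_pos ht hv1
  have hvt : v ≤ t * v := Nat.le_mul_of_pos_left _ ht
  have htt : t ≤ t * v := Nat.le_mul_of_pos_right _ hv1
  have hτ : tauP t l ≤ 7 * (t * v) := by
    unfold tauP
    omega
  have hY : YP t w l ≤ 13 * (t * v) := by
    unfold YP
    omega
  have hZ : ZP t w b l ≤ 3 * t * (v + b) := by
    unfold ZP
    have h1 : (w + 1) * t ≤ 2 * w * t := Nat.mul_le_mul_right _ (by omega)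
    have h2 : 2 * l ≤ 2 * (l * t) := Nat.mul_le_mul_left _ (Nat.le_mul_of_pos_right _ ht)
    have h3 : b ≤ t * b := Nat.le_mul_of_pos_left _ ht
    have h4 : 2 * w * t + 2 * (l * t) = 2 * (t * v) := by rw [hv]; ring
    have h5 : 3 * t * (v + b) = 3 * (t * v) + 3 * (t * b) := by ring
    omega
  have hL : LP t w l ≤ 300000 * (8 ^ t * 8 ^ t) * t * (7 * (t * v)) * (13 * (t * v)) := by
    unfold LP
    gcongr
  have hq : qP t w b l ≤ 8000 * 8 ^ t * (3 * t * (v + b)) := by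
    unfold qP
    gcongr
  have ht2 : t ^ 7 ≤ 128 ^ t := by
    have h1 : t ≤ 2 ^ t := Nat.lt_two_pow_self.le
    calc t ^ 7 ≤ (2 ^ t) ^ 7 := Nat.pow_le_pow_left h1 7
      _ = 128 ^ t := by
          rw [← pow_mul, mul_comm, pow_mul]
          norm_num
  have h8 : (8 ^ t * (8 ^ t * 8 ^ t) * (8 ^ t * 8 ^ t)) * 128 ^ t ≤ 10 ^ (7 * t) := by
    have h1 : (8 ^ t * (8 ^ t * 8 ^ t) * (8 ^ t * 8 ^ t)) * 128 ^ t = 4194304 ^ t := by
      rw [← mul_pow, ← mul_pow, ← mul_pow, ← mul_pow]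
      norm_num
    rw [h1, pow_mul]
    exact Nat.pow_le_pow_left (by norm_num) t
  have e1 : b + w + l = v + b := by omega
  rw [e1, ← hv]
  unfold MP
  calc qP t w b l * LP t w l * LP t w l
      ≤ (8000 * 8 ^ t * (3 * t * (v + b))) *
        (300000 * (8 ^ t * 8 ^ t) * t * (7 * (t * v)) * (13 * (t * v))) *
        (300000 * (8 ^ t * 8 ^ t) * t * (7 * (t * v)) * (13 * (t * v))) := by gcongr
    _ = 17886960000000000000 * ((8 ^ t * (8 ^ t * 8 ^ t) * (8 ^ t * 8 ^ t)) * t ^ 7) *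
        ((v + b) * v ^ 4) := by ring
    _ ≤ 10 ^ 20 * ((8 ^ t * (8 ^ t * 8 ^ t) * (8 ^ t * 8 ^ t)) * 128 ^ t) *
        ((v + b) * v ^ 4) := by gcongr; norm_num
    _ ≤ 10 ^ 20 * 10 ^ (7 * t) * ((v + b) * v ^ 4) := by gcongr
    _ = 10 ^ (7 * t + 20) * (v + b) * v ^ 4 := by rw [pow_add]; ring

theorem le_ML {t w b l : ℕ} (ht : 1 ≤ t) (hw : 1 ≤ w) :
    MP t w b l ≤ 10 ^ (7 * t + 20) * (b + w + l) * (w + l) ^ 4 := by
  refine le_trans ?_ (ML_bound ht hw)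
  refine Nat.le_mul_of_pos_right _ ?_
  unfold LP tauP YP
  positivity

/-- The numerical conclusion. -/
theorem numer5 {t w b l k s N : ℕ} (ht : 1 ≤ t) (hw : 1 ≤ w) (hs : 1 ≤ s)
    (hN : 2 * N < (k + 1) * MP t w b l)
    (h : ¬ (LP t w l ≤ k ∧ s ^ t * LP t w l ≤ (4 * tauP t l) ^ t * k ^ (t + 1))) :
    N ^ (t + 1) ≤ (10 ^ (7 * t + 20) * (b + w + l) * (w + l) ^ 4) ^ (t + 1) * s ^ t := by
  obtain ⟨C, hC⟩ : ∃ C, C = 10 ^ (7 * t + 20) * (b + w + l) * (w + l) ^ 4 := ⟨_, rfl⟩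
  have h1 := ML_bound (b := b) (l := l) ht hw
  have h2 := le_ML (b := b) (l := l) ht hw
  rw [← hC] at h1 h2 ⊢
  obtain ⟨M, hM⟩ : ∃ M, M = MP t w b l := ⟨_, rfl⟩
  obtain ⟨L, hL⟩ : ∃ L, L = LP t w l := ⟨_, rfl⟩
  rw [← hM] at h1 h2 hN
  rw [← hL] at h1 h
  have hst : 1 ≤ s ^ t := Nat.one_le_pow _ _ hs
  have hL1 : 1 ≤ L := by
    rw [hL]
    unfold LP tauP YP
    have : 0 < 300000 * (8 ^ t * 8 ^ t) * t * (l + 2 * t + 4) * (4 * l + w + (l + 2 * t + 4) + 2) :=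
      by positivity
    exact this
  rcases Nat.eq_zero_or_pos k with h0 | h0
  · subst h0
    calc N ^ (t + 1) ≤ C ^ (t + 1) := Nat.pow_le_pow_left (by omega) _
      _ ≤ C ^ (t + 1) * s ^ t := Nat.le_mul_of_pos_right _ hst
  have hNk : N ≤ k * M := by
    have h3 : (k + 1) * M ≤ (2 * k) * M := Nat.mul_le_mul_right _ (by omega)
    have h4 : (2 * k) * M = 2 * (k * M) := by ring
    omega
  by_cases hLk : L ≤ k
  · have h3 : (4 * tauP t l) ^ t * k ^ (t + 1) < s ^ t * L := by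
      by_contra hcon
      push Not at hcon
      exact h ⟨hLk, hcon⟩
    have h4 : k ^ (t + 1) ≤ s ^ t * L := by
      refine le_trans (Nat.le_mul_of_pos_left _ ?_) h3.le
      have : 0 < 4 * tauP t l := by unfold tauP; omega
      positivity
    calc N ^ (t + 1) ≤ (k * M) ^ (t + 1) := Nat.pow_le_pow_left hNk _
      _ = k ^ (t + 1) * M ^ (t + 1) := mul_pow _ _ _
      _ ≤ (s ^ t * L) * M ^ (t + 1) := Nat.mul_le_mul_right _ h4
      _ = L * M ^ (t + 1) * s ^ t := by ring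
      _ ≤ L ^ (t + 1) * M ^ (t + 1) * s ^ t := by
          refine Nat.mul_le_mul_right _ (Nat.mul_le_mul_right _ ?_)
          calc L = L ^ 1 := (pow_one L).symm
            _ ≤ L ^ (t + 1) := Nat.pow_le_pow_right hL1 (by omega)
      _ = (M * L) ^ (t + 1) * s ^ t := by rw [mul_pow M L]; ring
      _ ≤ C ^ (t + 1) * s ^ t := Nat.mul_le_mul_right _ (Nat.pow_le_pow_left h1 _)
  · have h3 : N ≤ C := by
      refine hNk.trans (le_trans ?_ h1)
      rw [mul_comm]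
      exact Nat.mul_le_mul_left _ (by omega)
    calc N ^ (t + 1) ≤ C ^ (t + 1) := Nat.pow_le_pow_left h3 _
      _ ≤ C ^ (t + 1) * s ^ t := Nat.le_mul_of_pos_right _ hst

/-! ### The theorem for data structures -/

theorem tr_eq_reads {k u w s : ℕ} (D : ProbeDS k u w s) (X Y : Fam u k) (d : Fin k × Fin k) :
    ∀ l : ℕ, tr (fun X Y c => D.cell (sets X) (sets Y) c)
      (fun (d : Fin k × Fin k) (X : Fam u k) v => D.next d.1 d.2 (sets X) v) X Y d l =
      D.reads (sets X) (sets Y) d.1 d.2 l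
  | 0 => rfl
  | l + 1 => by
      unfold tr ProbeDS.reads
      rw [tr_eq_reads D X Y d l]

/-- **Main theorem.** -/
theorem joint_probes (t N w b l : ℕ) (ht : 1 ≤ t) (hw : 1 ≤ w) (hl : N ≤ 2 ^ l) :
    ∃ k u : ℕ, u ≤ (10 ^ (7 * t + 20) * (b + w + l) * (w + l) ^ 4) ^ 2 ∧
      ∀ (s : ℕ), 1 ≤ s → ∀ (Ω : Type) [Fintype Ω] (p : Ω → ℝ) (D : Ω → ProbeDS k u w s),
        SolvesProbes b N t p D →
        N ^ (t + 1) ≤ (10 ^ (7 * t + 20) * (b + w + l) * (w + l) ^ 4) ^ (t + 1) * s ^ t := by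
  obtain ⟨M, hM⟩ : ∃ M, M = MP t w b l := ⟨_, rfl⟩
  have hMb : M = 10000 * bP t w b l * 4000 := hM.trans (MP_eq t w b l)
  have hb1 := bP_pos (t := t) (w := w) (b := b) (l := l) ht
  have hM4 : 40000000 ≤ M := by omega
  obtain ⟨k, hk0⟩ : ∃ k, k = 2 * N / M := ⟨_, rfl⟩
  have hkM : k * M ≤ 2 * N := by
    rw [hk0]
    exact Nat.div_mul_le_self _ _
  have hk2 : 2 * N < (k + 1) * M := by
    have h1 : 2 * N < M * (2 * N / M + 1) := Nat.lt_mul_div_succ (2 * N) (by omega)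
    rw [hk0, mul_comm (2 * N / M + 1) M]
    exact h1
  have hkN : k ≤ N := by
    have h2 : k * 2 ≤ k * M := Nat.mul_le_mul_left _ (by omega)
    omega
  rcases Nat.eq_zero_or_pos k with h0 | h0
  · refine ⟨1, 0, Nat.zero_le _, ?_⟩
    intro s hs Ω _ p D _
    refine numer5 (k := k) ht hw hs (by rw [← hM]; exact hk2) ?_
    rintro ⟨h1, -⟩
    rw [h0] at h1
    have : 0 < LP t w l := by
      unfold LP tauP YP
      positivity
    omega
  · refine ⟨k, M ^ 2 / 8, ?_, ?_⟩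
    · refine (Nat.div_le_self _ _).trans (Nat.pow_le_pow_left ?_ 2)
      rw [hM]
      exact le_ML ht hw
    intro s hs Ω _ p D h
    obtain ⟨hp, hp1, hd, hgood⟩ := h
    refine numer5 (k := k) ht hw hs (by rw [← hM]; exact hk2) ?_
    rintro ⟨h1, h2⟩
    refine no_small t w b l k s N M hM ht h0 (hkN.trans hl) h1 hkM hs h2 Ω p hp hp1
      (fun ω X Y c => (D ω).cell (sets X) (sets Y) c)
      (fun ω d X v => (D ω).next d.1 d.2 (sets X) v)
      (fun ω d v => ((D ω).query d.1 d.2 v).comap sets sets)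
      (fun ω d v => by rw [Prot.depth_comap]; exact hd _ _ _ _) ?_
    intro X Y hXY d
    obtain ⟨g1, g2⟩ := hgood (sets X) (sets Y) (by rw [sum_sets, sum_sets]; exact hXY) d.1 d.2
    have e1 : ∀ ω, Stops (fun X Y c => (D ω).cell (sets X) (sets Y) c)
        (fun (d : Fin k × Fin k) (X : Fam (M ^ 2 / 8) k) v => (D ω).next d.1 d.2 (sets X) v)
        t X Y d = (D ω).Stops (sets X) (sets Y) d.1 d.2 t := by
      intro ω
      unfold Stops ProbeDS.Stops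
      rw [tr_eq_reads (D ω) X Y d t]
    have e2 : ∀ ω, Bad (fun X Y c => (D ω).cell (sets X) (sets Y) c)
        (fun (d : Fin k × Fin k) (X : Fam (M ^ 2 / 8) k) v => (D ω).next d.1 d.2 (sets X) v)
        (fun d v => ((D ω).query d.1 d.2 v).comap sets sets) t X Y d =
        ¬ ((D ω).answer (sets X) (sets Y) d.1 d.2 t = true ↔
          (sets X d.1 ∩ sets Y d.2).Nonempty) := by
      intro ω
      unfold Bad ProbeDS.answer
      rw [tr_eq_reads (D ω) X Y d t, Prot.run_comap, sets_iff X Y d.1 d.2]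
    refine ⟨?_, fun hd => ?_⟩
    · refine le_trans (le_of_eq ?_) g1
      refine sum_congr rfl fun ω _ => ?_
      rw [e1 ω, e2 ω]
    · refine (g2 ?_).trans (le_of_eq ?_)
      · rw [sets_iff X Y d.1 d.2]
        exact not_not.mpr hd
      · refine sum_congr rfl fun ω _ => ?_
        rw [e1 ω]

end Pool.Agent.V8H11.JP
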