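import Pool.Agent.V8H11.JP.Deg
import Pool.Agent.Y85.OJ.Ub

set_option autoImplicit false

/-!
# A bilinear inequality for the disjointness kernel of a graph with small degrees
-/

namespace Pool.Agent.V8H11.JP

open Finset
open Pool.Agent.Y516.OJ (ind wt)

variable {k : ℕ}

/-- the weight of a set -/
noncomputable def ww (α : ℝ) (T : Finset (Fin k)) : ℝ := α ^ T.card * (1 - α) ^ (univ \ T).card

/-- the expectation over the random set -/
noncomputable def E1 (α : ℝ) (h : Finset (Fin k) → ℝ) : ℝ := ∑ T, ww α T * h T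

theorem E1_eq (α : ℝ) (h : Finset (Fin k) → ℝ) : E1 α h = EJ α univ h := by
  unfold E1 EJ ww
  rw [powerset_univ]

theorem ww_nonneg {α : ℝ} (h0 : 0 ≤ α) (h1 : α ≤ 1) (T : Finset (Fin k)) : 0 ≤ ww α T := by
  unfold ww
  have : 0 ≤ 1 - α := by linarith
  positivity

theorem E1_mono {α : ℝ} (h0 : 0 ≤ α) (h1 : α ≤ 1) {f g : Finset (Fin k) → ℝ}
    (h : ∀ T, f T ≤ g T) : E1 α f ≤ E1 α g :=
  sum_le_sum fun T _ => mul_le_mul_of_nonneg_left (h T) (ww_nonneg h0 h1 T)

theorem E1_nonneg {α : ℝ} (h0 : 0 ≤ α) (h1 : α ≤ 1) {f : Finset (Fin k) → ℝ}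
    (h : ∀ T, 0 ≤ f T) : 0 ≤ E1 α f :=
  sum_nonneg fun T _ => mul_nonneg (ww_nonneg h0 h1 T) (h T)

theorem E1_mul (α c : ℝ) (f : Finset (Fin k) → ℝ) :
    E1 α (fun T => c * f T) = c * E1 α f := by
  unfold E1
  rw [mul_sum]
  exact sum_congr rfl fun T _ => by ring

/-- the weights of the sets which are disjoint to `W` -/
theorem ww_disj (α : ℝ) (W : Finset (Fin k)) :
    E1 α (fun T => ind (Disjoint T W)) = (1 - α) ^ W.card := by
  classical
  have h := prod_add (fun i : Fin k => α * (if i ∈ W then 0 else 1)) (fun _ => 1 - α) univ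
  rw [powerset_univ] at h
  have h1 : ∏ i : Fin k, (α * (if i ∈ W then 0 else 1) + (1 - α)) = (1 - α) ^ W.card := by
    have h2 : ∀ i : Fin k, α * (if i ∈ W then 0 else 1) + (1 - α) =
        if i ∈ W then 1 - α else 1 := by
      intro i
      split_ifs <;> ring
    rw [prod_congr rfl fun i _ => h2 i, prod_ite, prod_const, prod_const_one, mul_one]
    congr 2
    ext i
    simp
  rw [← h1, h]
  unfold E1 ww
  refine sum_congr rfl fun T _ => ?_
  rw [prod_mul_distrib, prod_const, prod_const]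
  have h3 : (∏ i ∈ T, if i ∈ W then (0 : ℝ) else 1) = ind (Disjoint T W) := by
    unfold ind
    by_cases hd : Disjoint T W
    · rw [if_pos hd]
      exact prod_eq_one fun i hi => if_neg (disjoint_left.1 hd hi)
    · rw [if_neg hd]
      rw [not_disjoint_iff] at hd
      obtain ⟨i, h4, h5⟩ := hd
      exact prod_eq_zero h4 (if_pos h5)
  rw [h3]
  ring

/-- Hölder's inequality -/
theorem holder {A : Type} [Fintype A] {w f g : A → ℝ} (hw : ∀ a, 0 ≤ w a) (hf : ∀ a, 0 ≤ f a)
    (hg : ∀ a, 0 ≤ g a) {p q : ℝ} (hpq : p.HolderConjugate q) :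
    ∑ a, w a * (f a * g a) ≤ (∑ a, w a * f a ^ p) ^ (1 / p) * (∑ a, w a * g a ^ q) ^ (1 / q) := by
  have hp := hpq.pos
  have hq := hpq.symm.pos
  have h1 := Real.inner_le_Lp_mul_Lq_of_nonneg (univ : Finset A) hpq
    (f := fun a => w a ^ (1 / p) * f a) (g := fun a => w a ^ (1 / q) * g a)
    (fun a _ => mul_nonneg (Real.rpow_nonneg (hw a) _) (hf a))
    (fun a _ => mul_nonneg (Real.rpow_nonneg (hw a) _) (hg a))
  have e1 : ∀ a, (w a ^ (1 / p) * f a) * (w a ^ (1 / q) * g a) = w a * (f a * g a) := by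
    intro a
    have h2 : w a ^ (1 / p) * w a ^ (1 / q) = w a := by
      rcases (hw a).eq_or_lt with h3 | h3
      · rw [← h3, Real.zero_rpow (by positivity), zero_mul]
      · rw [← Real.rpow_add h3]
        have h4 := hpq.inv_add_inv_eq_one
        rw [one_div, one_div, h4, Real.rpow_one]
    calc _ = (w a ^ (1 / p) * w a ^ (1 / q)) * (f a * g a) := by ring
      _ = _ := by rw [h2]
  have e2 : ∀ (r : ℝ) (h : A → ℝ), 0 < r → (∀ a, 0 ≤ h a) → ∀ a,
      (w a ^ (1 / r) * h a) ^ r = w a * h a ^ r := by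
    intro r h hr hh a
    rw [Real.mul_rpow (Real.rpow_nonneg (hw a) _) (hh a), ← Real.rpow_mul (hw a),
      one_div_mul_cancel hr.ne', Real.rpow_one]
  simp only [e1] at h1
  simp only [e2 p f hp hf, e2 q g hq hg] at h1
  exact h1

/-- the operator of the kernel -/
noncomputable def Top (α : ℝ) (S : Finset (Fin k × Fin k)) (g : Finset (Fin k) → ℝ)
    (x : Finset (Fin k)) : ℝ := E1 α fun y => g y * ind (Disjoint x (nb S y))

/-- the moments -/
noncomputable def H (α : ℝ) (S : Finset (Fin k × Fin k)) (g : Finset (Fin k) → ℝ) :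
    ℕ → Finset (Fin k) → ℝ
  | 0, _ => 1
  | n + 1, W => E1 α fun y => g y * (1 - α) ^ (nb S y \ W).card * H α S g n (W ∪ nb S y)

theorem ind_mul_disj (x A B : Finset (Fin k)) :
    ind (Disjoint x A) * ind (Disjoint x B) = ind (Disjoint x (A ∪ B)) := by
  have h : Disjoint x (A ∪ B) ↔ Disjoint x A ∧ Disjoint x B := disjoint_union_right
  unfold ind
  by_cases h1 : Disjoint x A
  · by_cases h2 : Disjoint x B
    · rw [if_pos h1, if_pos h2, if_pos (h.2 ⟨h1, h2⟩), one_mul]
    · rw [if_neg h2, if_neg (fun h3 => h2 (h.1 h3).2), mul_zero]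
  · rw [if_neg h1, if_neg (fun h3 => h1 (h.1 h3).1), zero_mul]

/-- (C) -/
theorem lemC (α : ℝ) (S : Finset (Fin k × Fin k)) (g : Finset (Fin k) → ℝ) :
    ∀ (n : ℕ) (W : Finset (Fin k)), E1 α (fun x => ind (Disjoint x W) * Top α S g x ^ n) =
      (1 - α) ^ W.card * H α S g n W := by
  intro n
  induction n with
  | zero =>
    intro W
    simp only [pow_zero, mul_one]
    rw [ww_disj]
    unfold H
    rw [mul_one]
  | succ n ih =>
    intro W
    have e1 : E1 α (fun x => ind (Disjoint x W) * Top α S g x ^ (n + 1)) =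
        E1 α fun y => g y * E1 α fun x => ind (Disjoint x (W ∪ nb S y)) * Top α S g x ^ n := by
      have e2 : ∀ x : Finset (Fin k), ind (Disjoint x W) * Top α S g x ^ (n + 1) =
          E1 α fun y => g y * (ind (Disjoint x (W ∪ nb S y)) * Top α S g x ^ n) := by
        intro x
        have e3 : (fun y => g y * (ind (Disjoint x (W ∪ nb S y)) * Top α S g x ^ n)) =
            fun y => (ind (Disjoint x W) * Top α S g x ^ n) * (g y * ind (Disjoint x (nb S y))) := by
          funext y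
          rw [← ind_mul_disj]
          ring
        rw [e3, E1_mul]
        show _ = ind (Disjoint x W) * Top α S g x ^ n * Top α S g x
        ring
      simp only [e2]
      unfold E1
      simp only [mul_sum]
      rw [sum_comm]
      exact sum_congr rfl fun y _ => sum_congr rfl fun x _ => by ring
    rw [e1]
    have e4 : ∀ y : Finset (Fin k), g y *
        E1 α (fun x => ind (Disjoint x (W ∪ nb S y)) * Top α S g x ^ n) =
        (1 - α) ^ W.card * (g y * (1 - α) ^ (nb S y \ W).card * H α S g n (W ∪ nb S y)) := by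
      intro y
      rw [ih]
      have h1 : (W ∪ nb S y).card = W.card + (nb S y \ W).card := by
        rw [← union_sdiff_self_eq_union, card_union_of_disjoint disjoint_sdiff]
      rw [h1, pow_add]
      ring
    simp only [e4]
    rw [E1_mul]
    rfl

/-- (B) -/
theorem lemB {S : Finset (Fin k × Fin k)} {Δ q : ℕ} {α p : ℝ}
    (hΔ1 : ∀ i, (S.filter fun d => d.1 = i).card ≤ Δ)
    (hΔ2 : ∀ j, (S.filter fun d => d.2 = j).card ≤ Δ) (h0 : 0 ≤ α) (h1 : α ≤ 1) (hq : 2 ≤ q)
    (hpq : p.HolderConjugate q) (hα : α * q * Δ ≤ 4) {g : Finset (Fin k) → ℝ}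
    (hg : ∀ y, 0 ≤ g y) :
    ∀ n : ℕ, n ≤ q → ∀ W : Finset (Fin k), H α S g n W ≤
      ((E1 α fun y => g y ^ p) ^ (1 / p)) ^ n * Real.exp (-(α ^ 2 / 8 * n * ed S univ W)) := by
  intro n
  have hΔ0 : (0 : ℝ) ≤ Δ := Nat.cast_nonneg _
  have hqR : (2 : ℝ) ≤ q := by exact_mod_cast hq
  have hαΔ : α * Δ ≤ 2 := by
    have h2 : (α * Δ) * 2 ≤ (α * Δ) * q := mul_le_mul_of_nonneg_left hqR (by positivity)
    nlinarith
  obtain ⟨G, hG⟩ : ∃ G : ℝ, G = (E1 α fun y => g y ^ p) ^ (1 / p) := ⟨_, rfl⟩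
  have hG0 : 0 ≤ G := by
    rw [hG]
    exact Real.rpow_nonneg (E1_nonneg h0 h1 fun y => Real.rpow_nonneg (hg y) _) _
  rw [← hG]
  induction n with
  | zero =>
    intro _ W
    unfold H
    simp
  | succ n ih =>
    intro hn W
    have ih' := ih (by omega)
    have hnR : ((n : ℝ) + 1) ≤ q := by exact_mod_cast hn
    have hn0 : (0 : ℝ) ≤ n := Nat.cast_nonneg _
    show E1 α (fun y => g y * (1 - α) ^ (nb S y \ W).card * H α S g n (W ∪ nb S y)) ≤ _
    -- pointwise
    have hpt : ∀ y : Finset (Fin k), g y * (1 - α) ^ (nb S y \ W).card * H α S g n (W ∪ nb S y) ≤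
        G ^ n * Real.exp (-(α ^ 2 / 8 * n * ed S univ W)) *
          (g y * Real.exp (-(α / 2 * (nb S y \ W).card))) := by
      intro y
      obtain ⟨c, hc⟩ : ∃ c : ℝ, c = ((nb S y \ W).card : ℝ) := ⟨_, rfl⟩
      have hc0 : 0 ≤ c := by rw [hc]; exact Nat.cast_nonneg _
      have a1 : (1 - α) ^ (nb S y \ W).card ≤ Real.exp (-(α * c)) := by
        have a2 : 1 - α ≤ Real.exp (-α) := by
          have := Real.add_one_le_exp (-α)
          linarith
        calc (1 - α) ^ (nb S y \ W).card ≤ Real.exp (-α) ^ (nb S y \ W).card :=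
              pow_le_pow_left₀ (by linarith) a2 _
          _ = Real.exp (-(α * c)) := by
              rw [← Real.exp_nat_mul, hc]
              congr 1
              ring
      have a3 : (ed S univ W : ℝ) ≤ ed S univ (W ∪ nb S y) + Δ * c := by
        have := ed_le S hΔ1 univ W (nb S y)
        rw [hc]
        exact_mod_cast this
      have a4 : Real.exp (-(α ^ 2 / 8 * n * ed S univ (W ∪ nb S y))) ≤
          Real.exp (-(α ^ 2 / 8 * n * ed S univ W)) * Real.exp (α * c / 2) := by
        rw [← Real.exp_add]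
        apply Real.exp_le_exp.2
        have a5 : α ^ 2 / 8 * n * ed S univ W ≤
            α ^ 2 / 8 * n * (ed S univ (W ∪ nb S y) + Δ * c) :=
          mul_le_mul_of_nonneg_left a3 (by positivity)
        have a6 : α ^ 2 / 8 * n * (Δ * c) ≤ α * c / 2 := by
          have a7 : α * n * Δ ≤ 4 := by
            have : α * n * Δ ≤ α * q * Δ := by
              refine mul_le_mul_of_nonneg_right (mul_le_mul_of_nonneg_left ?_ h0) hΔ0
              linarith
            linarith
          have a8 : (α * n * Δ) * (α * c / 8) ≤ 4 * (α * c / 8) :=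
            mul_le_mul_of_nonneg_right a7 (by positivity)
          linarith
        linarith
      have a9 : H α S g n (W ∪ nb S y) ≤ G ^ n *
          (Real.exp (-(α ^ 2 / 8 * n * ed S univ W)) * Real.exp (α * c / 2)) :=
        (ih' _).trans (mul_le_mul_of_nonneg_left a4 (by positivity))
      have a10 : 0 ≤ G ^ n * (Real.exp (-(α ^ 2 / 8 * n * ed S univ W)) * Real.exp (α * c / 2)) :=
        by positivity
      have a11 : 0 ≤ (1 - α) ^ (nb S y \ W).card := pow_nonneg (by linarith) _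
      calc g y * (1 - α) ^ (nb S y \ W).card * H α S g n (W ∪ nb S y)
          ≤ g y * (1 - α) ^ (nb S y \ W).card * (G ^ n *
            (Real.exp (-(α ^ 2 / 8 * n * ed S univ W)) * Real.exp (α * c / 2))) :=
            mul_le_mul_of_nonneg_left a9 (mul_nonneg (hg y) a11)
        _ ≤ g y * Real.exp (-(α * c)) * (G ^ n *
            (Real.exp (-(α ^ 2 / 8 * n * ed S univ W)) * Real.exp (α * c / 2))) :=
            mul_le_mul_of_nonneg_right (mul_le_mul_of_nonneg_left a1 (hg y)) a10
        _ = G ^ n * Real.exp (-(α ^ 2 / 8 * n * ed S univ W)) *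
            (g y * (Real.exp (-(α * c)) * Real.exp (α * c / 2))) := by ring
        _ = _ := by
            rw [← Real.exp_add, ← hc]
            congr 3
            ring
    refine (E1_mono h0 h1 hpt).trans ?_
    rw [E1_mul]
    -- Hölder
    have hH := holder (w := ww α) (f := g) (g := fun y => Real.exp (-(α / 2 * (nb S y \ W).card)))
      (ww_nonneg h0 h1) hg (fun y => (Real.exp_pos _).le) hpq
    have hE : (∑ y : Finset (Fin k), ww α y * Real.exp (-(α / 2 * (nb S y \ W).card)) ^ (q : ℝ)) ≤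
        Real.exp (-(α * (α * q / 2) / 4 * ed S univ W)) := by
      have b1 := lemA (S := S) (α := α) (lam := α * q / 2) hΔ1 hΔ2 h0 h1 (by positivity)
        (by linarith) hαΔ univ W
      rw [← E1_eq] at b1
      refine le_trans (le_of_eq ?_) b1
      unfold E1
      refine sum_congr rfl fun y _ => ?_
      rw [← Real.exp_mul]
      congr 2
      ring
    have hq0 : (0 : ℝ) < q := by linarith
    have hE2 : (∑ y : Finset (Fin k), ww α y * Real.exp (-(α / 2 * (nb S y \ W).card)) ^ (q : ℝ)) ^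
        (1 / (q : ℝ)) ≤ Real.exp (-(α ^ 2 / 8 * ed S univ W)) := by
      refine (Real.rpow_le_rpow (sum_nonneg fun y _ => mul_nonneg (ww_nonneg h0 h1 y)
        (Real.rpow_nonneg (Real.exp_pos _).le _)) hE (by positivity)).trans (le_of_eq ?_)
      rw [← Real.exp_mul]
      congr 1
      field_simp
      ring
    have hfin : E1 α (fun y => g y * Real.exp (-(α / 2 * (nb S y \ W).card))) ≤
        G * Real.exp (-(α ^ 2 / 8 * ed S univ W)) := by
      refine hH.trans ?_
      rw [hG]
      exact mul_le_mul_of_nonneg_left hE2 (by rw [hG] at hG0; exact hG0)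
    calc G ^ n * Real.exp (-(α ^ 2 / 8 * n * ed S univ W)) *
          E1 α (fun y => g y * Real.exp (-(α / 2 * (nb S y \ W).card)))
        ≤ G ^ n * Real.exp (-(α ^ 2 / 8 * n * ed S univ W)) *
          (G * Real.exp (-(α ^ 2 / 8 * ed S univ W))) :=
          mul_le_mul_of_nonneg_left hfin (by positivity)
      _ = G ^ (n + 1) * (Real.exp (-(α ^ 2 / 8 * n * ed S univ W)) *
          Real.exp (-(α ^ 2 / 8 * ed S univ W))) := by ring
      _ = _ := by
          rw [← Real.exp_add]
          congr 2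
          push_cast
          ring

/-- The bilinear inequality, for functions of sets. -/
theorem ker_sets {S : Finset (Fin k × Fin k)} {Δ q : ℕ} {α p : ℝ}
    (hΔ1 : ∀ i, (S.filter fun d => d.1 = i).card ≤ Δ)
    (hΔ2 : ∀ j, (S.filter fun d => d.2 = j).card ≤ Δ) (h0 : 0 ≤ α) (h1 : α ≤ 1) (hq : 2 ≤ q)
    (hpq : p.HolderConjugate q) (hα : α * q * Δ ≤ 4) {f g : Finset (Fin k) → ℝ}
    (hf : ∀ x, 0 ≤ f x) (hg : ∀ y, 0 ≤ g y) :
    E1 α (fun x => f x * Top α S g x) ≤ Real.exp (-(α ^ 2 * S.card / 8)) *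
      ((E1 α fun x => f x ^ p) ^ (1 / p) * (E1 α fun y => g y ^ p) ^ (1 / p)) := by
  have hqR : (2 : ℝ) ≤ q := by exact_mod_cast hq
  have hq0 : (0 : ℝ) < q := by linarith
  have hT0 : ∀ x, 0 ≤ Top α S g x := fun x => E1_nonneg h0 h1 fun y =>
    mul_nonneg (hg y) (Pool.Agent.Y85.OJ.ind_nonneg _)
  obtain ⟨G, hG⟩ : ∃ G : ℝ, G = (E1 α fun y => g y ^ p) ^ (1 / p) := ⟨_, rfl⟩
  have hG0 : 0 ≤ G := by
    rw [hG]
    exact Real.rpow_nonneg (E1_nonneg h0 h1 fun y => Real.rpow_nonneg (hg y) _) _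
  have hH := holder (w := ww α) (f := f) (g := Top α S g) (ww_nonneg h0 h1) hf hT0 hpq
  have hC := lemC α S g q ∅
  have hB := lemB hΔ1 hΔ2 h0 h1 hq hpq hα hg q le_rfl ∅
  rw [← hG, ed_univ] at hB
  rw [card_empty, pow_zero, one_mul] at hC
  have e1 : ∑ x : Finset (Fin k), ww α x * Top α S g x ^ (q : ℝ) = H α S g q ∅ := by
    rw [← hC]
    unfold E1
    refine sum_congr rfl fun x _ => ?_
    show _ = ww α x * (ind (Disjoint x ∅) * Top α S g x ^ q)
    rw [Real.rpow_natCast, Pool.Agent.Y85.OJ.ind_true (disjoint_empty_right x), one_mul]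
  rw [e1] at hH
  have hHq : 0 ≤ H α S g q ∅ := by
    rw [← e1]
    exact sum_nonneg fun x _ => mul_nonneg (ww_nonneg h0 h1 x) (Real.rpow_nonneg (hT0 x) _)
  have e2 : (H α S g q ∅) ^ (1 / (q : ℝ)) ≤ G * Real.exp (-(α ^ 2 * S.card / 8)) := by
    refine (Real.rpow_le_rpow hHq hB (by positivity)).trans (le_of_eq ?_)
    rw [Real.mul_rpow (by positivity) (Real.exp_pos _).le, ← Real.rpow_natCast G q,
      ← Real.rpow_mul hG0, mul_one_div_cancel hq0.ne', Real.rpow_one, ← Real.exp_mul]
    congr 2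
    field_simp
  have hF0 : 0 ≤ (E1 α fun x => f x ^ p) ^ (1 / p) :=
    Real.rpow_nonneg (E1_nonneg h0 h1 fun y => Real.rpow_nonneg (hf y) _) _
  calc E1 α (fun x => f x * Top α S g x)
      ≤ (E1 α fun x => f x ^ p) ^ (1 / p) * (H α S g q ∅) ^ (1 / (q : ℝ)) := hH
    _ ≤ (E1 α fun x => f x ^ p) ^ (1 / p) * (G * Real.exp (-(α ^ 2 * S.card / 8))) :=
        mul_le_mul_of_nonneg_left e2 hF0
    _ = _ := by rw [← hG]; ring

end Pool.Agent.V8H11.JP
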