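import Pool.Agent.V8H11.JP.Core

set_option autoImplicit false

/-!
# The main inequality
-/

namespace Pool.Agent.V8H11.JP

open Finset
open Pool.Agent.Y516.OJ
open Pool.Agent.Y85.OJ (EE_nonneg ind_true ind_false ind_nonneg EE_mono EE_one)

/-- the parameters -/
def tauP (t l : ℕ) : ℕ := l + 2 * t + 4
/-- the parameters -/
def YP (t w l : ℕ) : ℕ := 4 * l + w + tauP t l + 2
/-- the parameters -/
def LP (t w l : ℕ) : ℕ := 300000 * (8 ^ t * 8 ^ t) * t * tauP t l * YP t w l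
/-- the parameters -/
def ZP (t w b l : ℕ) : ℕ := 2 * l + 1 + (w + 1) * t + b
/-- the parameters -/
def qP (t w b l : ℕ) : ℕ := 8000 * 8 ^ t * ZP t w b l

theorem two_mul_le_two_pow {n : ℕ} (h : 1 ≤ n) : 2 * n ≤ 2 ^ n := by
  obtain ⟨m, rfl⟩ : ∃ m, n = m + 1 := ⟨n - 1, by omega⟩
  have h1 : m < 2 ^ m := Nat.lt_two_pow_self
  rw [pow_succ]
  omega

/-- the number `y` -/
theorem exists_y {t k L s τ : ℕ} (ht : 1 ≤ t) (hk : 1 ≤ k) (hL : 1 ≤ L) (hLk : L ≤ k)
    (hs : s ^ t * L ≤ (4 * τ) ^ t * k ^ (t + 1)) :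
    ∃ y : ℝ, 0 < y ∧ y ≤ 1 ∧ y ^ t * k = L ∧ y * s ≤ 4 * (k * τ) ∧ 1 ≤ y * k := by
  have hkR : (1 : ℝ) ≤ k := by exact_mod_cast hk
  have hk0 : (0 : ℝ) < k := by linarith
  have hLR : (1 : ℝ) ≤ L := by exact_mod_cast hL
  have hLkR : (L : ℝ) ≤ k := by exact_mod_cast hLk
  have ht0 : (t : ℝ) ≠ 0 := by
    have : (1 : ℝ) ≤ t := by exact_mod_cast ht
    linarith
  have hx0 : (0 : ℝ) < L / k := by positivity
  have hx1 : (L : ℝ) / k ≤ 1 := by rw [div_le_one hk0]; exact hLkR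
  obtain ⟨y, hy⟩ : ∃ y : ℝ, y = ((L : ℝ) / k) ^ (1 / (t : ℝ)) := ⟨_, rfl⟩
  have hy0 : 0 < y := by rw [hy]; exact Real.rpow_pos_of_pos hx0 _
  have hy1 : y ≤ 1 := by
    rw [hy]
    exact Real.rpow_le_one hx0.le hx1 (by positivity)
  have hyt : y ^ t = L / k := by
    rw [hy, ← Real.rpow_natCast, ← Real.rpow_mul hx0.le, one_div_mul_cancel ht0, Real.rpow_one]
  refine ⟨y, hy0, hy1, ?_, ?_, ?_⟩
  · rw [hyt]
    field_simp
  · have h1 : (y * s) ^ t ≤ (4 * (k * τ)) ^ t := by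
      rw [mul_pow, hyt]
      have h2 : ((s : ℝ) ^ t * L) ≤ (4 * τ) ^ t * k ^ (t + 1) := by exact_mod_cast hs
      rw [div_mul_eq_mul_div, div_le_iff₀ hk0]
      calc (L : ℝ) * s ^ t = s ^ t * L := by ring
        _ ≤ (4 * τ) ^ t * k ^ (t + 1) := h2
        _ = (4 * (k * τ)) ^ t * k := by
            rw [mul_pow, mul_pow, mul_pow, pow_succ]
            ring
    exact le_of_pow_le_pow_left₀ (by omega) (by positivity) h1
  · have h1 : y ^ t ≤ y := by
      calc y ^ t ≤ y ^ 1 := pow_le_pow_of_le_one hy0.le hy1 ht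
        _ = y := pow_one y
    rw [hyt] at h1
    have h2 : (L : ℝ) / k * k ≤ y * k := mul_le_mul_of_nonneg_right h1 hk0.le
    rw [div_mul_cancel₀ _ hk0.ne'] at h2
    linarith

theorem hcond {t l k : ℕ} {y : ℝ} (hkl : k ≤ 2 ^ l) (hk : 1 ≤ k) (hy : 1 ≤ y * k) :
    8 * (k : ℝ) * Real.exp (-(2 * (tauP t l : ℝ))) ≤ y / 4 * ((1 / 8) ^ t / 4) := by
  have hkR : (1 : ℝ) ≤ k := by exact_mod_cast hk
  have hk0 : (0 : ℝ) < k := by linarith
  have hklR : (k : ℝ) ≤ 2 ^ l := by exact_mod_cast hkl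
  have h1 : (2 : ℝ) ^ (2 * tauP t l) ≤ Real.exp (2 * (tauP t l : ℝ)) := by
    have h2 : (2 : ℝ) ≤ Real.exp 1 := by
      have := Real.add_one_le_exp (1 : ℝ)
      linarith
    calc (2 : ℝ) ^ (2 * tauP t l) ≤ Real.exp 1 ^ (2 * tauP t l) :=
          pow_le_pow_left₀ (by norm_num) h2 _
      _ = Real.exp (2 * (tauP t l : ℝ)) := by
          rw [← Real.exp_nat_mul]
          congr 1
          push_cast
          ring
  have h3 : 128 * 8 ^ t * (k : ℝ) ^ 2 ≤ 2 ^ (2 * tauP t l) := by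
    have h4 : (2 : ℝ) ^ (2 * tauP t l) = 256 * 16 ^ t * (2 ^ l) ^ 2 := by
      unfold tauP
      have h5 : 2 * (l + 2 * t + 4) = l * 2 + 4 * t + 8 := by ring
      rw [h5, pow_add, pow_add, pow_mul, pow_mul]
      norm_num
      ring
    rw [h4]
    have h5 : (8 : ℝ) ^ t ≤ 16 ^ t := pow_le_pow_left₀ (by norm_num) (by norm_num) _
    have h6 : (k : ℝ) ^ 2 ≤ (2 ^ l) ^ 2 := pow_le_pow_left₀ hk0.le hklR _
    have h7 : (128 : ℝ) * 8 ^ t ≤ 256 * 16 ^ t := by
      have : (0 : ℝ) < 16 ^ t := by positivity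
      linarith
    exact mul_le_mul h7 h6 (by positivity) (by positivity)
  have hE : 0 < Real.exp (2 * (tauP t l : ℝ)) := Real.exp_pos _
  rw [Real.exp_neg, ← div_eq_mul_inv, div_le_iff₀ hE]
  have h8 : 128 * 8 ^ t * (k : ℝ) ^ 2 ≤ Real.exp (2 * (tauP t l : ℝ)) := h3.trans h1
  have h9 : (1 / 8 : ℝ) ^ t * 8 ^ t = 1 := by
    rw [← mul_pow]
    norm_num
  have hy0 : 0 < y := by
    by_contra h
    push Not at h
    have : y * k ≤ 0 := mul_nonpos_of_nonpos_of_nonneg h hk0.le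
    linarith
  calc 8 * (k : ℝ) ≤ (y * k) * (8 * k) := by nlinarith
    _ = y / 4 * ((1 / 8) ^ t / 4) * (128 * 8 ^ t * (k : ℝ) ^ 2) := by
        have : y / 4 * ((1 / 8) ^ t / 4) * (128 * 8 ^ t * (k : ℝ) ^ 2) =
          8 * y * (k : ℝ) ^ 2 * ((1 / 8 : ℝ) ^ t * 8 ^ t) := by ring
        rw [this, h9]
        ring
    _ ≤ y / 4 * ((1 / 8) ^ t / 4) * Real.exp (2 * (tauP t l : ℝ)) :=
        mul_le_mul_of_nonneg_left h8 (by positivity)

/-- The numerical inequality. -/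
theorem numeric {t k n L Z q W τ : ℕ} (ht : 1 ≤ t) (hk : 1 ≤ k) (hτ : 1 ≤ τ) (hW : 1 ≤ W)
    (hZ1 : 1 ≤ Z) (hL' : L = 300000 * (8 ^ t * 8 ^ t) * t * τ * W) (hq' : q = 8000 * 8 ^ t * Z)
    (hn : n = 192 * 8 ^ t * k * τ) :
    (W : ℝ) * (n * t) + Z * (k * L) * (1 / ((q : ℝ) - 1)) + 5 ≤
      ((1 / 8 : ℝ) ^ t / 4 * k * L) / 250 := by
  have h18 : (1 / 8 : ℝ) ^ t * 8 ^ t = 1 := by
    rw [← mul_pow]
    norm_num
  have hkR : (1 : ℝ) ≤ k := by exact_mod_cast hk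
  have htR : (1 : ℝ) ≤ t := by exact_mod_cast ht
  have h8R : (1 : ℝ) ≤ 8 ^ t := one_le_pow₀ (by norm_num)
  have hWR : (1 : ℝ) ≤ W := by exact_mod_cast hW
  have hτR1 : (1 : ℝ) ≤ τ := by exact_mod_cast hτ
  have hZR : (1 : ℝ) ≤ Z := by exact_mod_cast hZ1
  have hLR : (L : ℝ) = 300000 * (8 ^ t * 8 ^ t) * t * τ * W := by
    rw [hL']
    push_cast
    ring
  have hqR : (q : ℝ) = 8000 * 8 ^ t * Z := by
    rw [hq']
    push_cast
    ring
  have hnR : (n : ℝ) = 192 * 8 ^ t * k * τ := by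
    rw [hn]
    push_cast
    ring
  obtain ⟨e8, he8⟩ : ∃ e8 : ℝ, e8 = 8 ^ t := ⟨_, rfl⟩
  rw [← he8] at hLR hqR h8R h18 hnR
  obtain ⟨p, hp⟩ : ∃ p : ℝ, p = e8 * k * t * τ * W := ⟨_, rfl⟩
  have hm0' : ((1 / 8 : ℝ) ^ t / 4 * k * L) / 250 = 300 * p := by
    have h1 : ((1 / 8 : ℝ) ^ t / 4 * k * L) / 250 = 300 * p * ((1 / 8 : ℝ) ^ t * e8) := by
      rw [hLR, hp]
      ring
    rw [h1, h18, mul_one]
  have h1 : (W : ℝ) * (n * t) = 192 * p := by
    rw [hnR, hp]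
    ring
  have he0 : 0 < e8 := by linarith
  have hZ0 : (0 : ℝ) < Z := by linarith
  have h3 : 1 / ((q : ℝ) - 1) ≤ 1 / (4000 * (e8 * Z)) := by
    apply one_div_le_one_div_of_le (by positivity)
    rw [hqR]
    have h4 : 1 ≤ e8 * Z := one_le_mul_of_one_le_of_one_le h8R hZR
    linarith
  have h2 : (Z : ℝ) * (k * L) * (1 / ((q : ℝ) - 1)) ≤ 75 * p := by
    have h5 : (0 : ℝ) ≤ Z * (k * L) := by positivity
    refine (mul_le_mul_of_nonneg_left h3 h5).trans (le_of_eq ?_)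
    rw [mul_one_div, div_eq_iff (by positivity), hLR, hp]
    ring
  have h6 : 1 ≤ p := by
    rw [hp]
    have a1 : 1 ≤ e8 * k := one_le_mul_of_one_le_of_one_le h8R hkR
    have a2 : 1 ≤ e8 * k * t := one_le_mul_of_one_le_of_one_le a1 htR
    have a3 : 1 ≤ e8 * k * t * τ := one_le_mul_of_one_le_of_one_le a2 hτR1
    exact one_le_mul_of_one_le_of_one_le a3 hWR
  rw [hm0', h1]
  linarith

/-- The probability that the scores are large is small. -/
theorem main_bound (t w b l k s u : ℕ) (ht : 1 ≤ t) (hk : 1 ≤ k) (hkl : k ≤ 2 ^ l)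
    (hLk : LP t w l ≤ k) (hs : s ^ t * LP t w l ≤ (4 * tauP t l) ^ t * k ^ (t + 1))
    (α : ℝ) (hα0 : 0 < α) (hα1 : α ≤ 1) (hαq : α * (qP t w b l : ℕ) * (LP t w l : ℕ) ≤ 4)
    (hρ : Real.exp (-(α ^ 2 * u / 8)) ≤ 197 / 200)
    (J : Fam u k → Fam u k → Fin s → Fin (2 ^ w))
    (nx : Fin k × Fin k → Fam u k → List (Fin (2 ^ w)) → Option (Fin s))
    (query : Fin k × Fin k → List (Fin (2 ^ w)) → Prot (Fam u k) (Fam u k))
    (hq : ∀ d v, (query d v).depth ≤ b) (c0 : Fin s) :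
    EE α (fun X Y => ind ((k : ℝ) ^ 2 / 4 ≤ ∑ d, score J nx query t X Y d)) ≤ 1 / 32 := by
  classical
  have hkR : (1 : ℝ) ≤ k := by exact_mod_cast hk
  have hk0 : (0 : ℝ) < k := by linarith
  obtain ⟨τ, hτ⟩ : ∃ τ, τ = tauP t l := ⟨_, rfl⟩
  obtain ⟨L, hL⟩ : ∃ L, L = LP t w l := ⟨_, rfl⟩
  obtain ⟨W, hW⟩ : ∃ W, W = YP t w l := ⟨_, rfl⟩
  obtain ⟨Z, hZ⟩ : ∃ Z, Z = ZP t w b l := ⟨_, rfl⟩
  obtain ⟨q, hqq⟩ : ∃ q, q = qP t w b l := ⟨_, rfl⟩
  have hτ4 : 4 ≤ τ := by rw [hτ]; unfold tauP; omega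
  have hWτ : τ + 2 ≤ W := by rw [hW, hτ]; unfold YP; omega
  have hZ1 : 1 ≤ Z := by rw [hZ]; unfold ZP; omega
  have hL' : L = 300000 * (8 ^ t * 8 ^ t) * t * τ * W := by rw [hL, hτ, hW]; rfl
  have hq' : q = 8000 * 8 ^ t * Z := by rw [hqq, hZ]; rfl
  have h8 : 1 ≤ 8 ^ t := Nat.one_le_pow _ _ (by norm_num)
  have hLτ : 4 * τ ≤ L := by
    rw [hL']
    calc 4 * τ ≤ 300000 * 1 * 1 * τ * 1 := by omega
      _ ≤ 300000 * (8 ^ t * 8 ^ t) * t * τ * W := by
          gcongr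
          · exact Nat.mul_pos h8 h8
          · omega
  have hL1 : 1 ≤ L := by omega
  rw [← hL] at hLk hs hαq
  rw [← hτ] at hs
  rw [← hqq] at hαq
  obtain ⟨y, hy0, hy1, hyt, hys, hyk⟩ := exists_y ht hk hL1 hLk hs
  have hcnd := hcond (t := t) hkl hk hyk
  rw [← hτ] at hcnd
  have hτR : (0 : ℝ) < (τ : ℝ) := by
    have : 0 < τ := by omega
    exact_mod_cast this
  -- the number of chunks
  obtain ⟨n, hn⟩ : ∃ n, n = 192 * 8 ^ t * k * τ := ⟨_, rfl⟩
  have h18 : (1 / 8 : ℝ) ^ t * 8 ^ t = 1 := by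
    rw [← mul_pow]
    norm_num
  have h180 : (0 : ℝ) < (1 / 8) ^ t := by positivity
  have hnR : 48 * (k : ℝ) * τ / ((1 / 8) ^ t / 4) ≤ n := by
    rw [div_le_iff₀ (by positivity), hn]
    push_cast
    have : 192 * 8 ^ t * (k : ℝ) * τ * ((1 / 8) ^ t / 4) =
      48 * k * τ * ((1 / 8 : ℝ) ^ t * 8 ^ t) := by ring
    rw [this, h18, mul_one]
  obtain ⟨Adv, _, D, ct, hc, hlen, hmain⟩ := iter hk J nx c0
    (fun X Y d => score J nx query t X Y d) (fun X Y d => score_le J nx query t X Y d) y τ t n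
    hy0 hy1 hτR (by linarith) hcnd (by rw [hyt]; exact_mod_cast hLτ) hnR t le_rfl
  rw [hyt] at hmain
  -- the queries which stop
  obtain ⟨Dv, hDv⟩ : ∃ Dv : Adv → Fam u k → Finset (Fin k × Fin k), Dv = fun v X =>
    (D v X).filter fun d => nx d X (ct v X d) = none := ⟨_, rfl⟩
  obtain ⟨m0, hm0⟩ : ∃ m0 : ℝ, m0 = (1 / 8) ^ t / 4 * k * L := ⟨_, rfl⟩
  have hm00 : 0 ≤ m0 := by rw [hm0]; positivity
  obtain ⟨PP, hPP⟩ : ∃ PP : Finset (Finset (Fin k × Fin k)), PP =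
    (univ : Finset (Finset (Fin k × Fin k))).filter fun D =>
      (∀ i, (D.filter fun d => d.1 = i).card ≤ L) ∧ (∀ j, (D.filter fun d => d.2 = j).card ≤ L) ∧
      m0 ≤ (D.card : ℝ) := ⟨_, rfl⟩
  have hPPm : ∀ D ∈ PP, (∀ i, (D.filter fun d => d.1 = i).card ≤ L) ∧
      (∀ j, (D.filter fun d => d.2 = j).card ≤ L) ∧ m0 ≤ (D.card : ℝ) := by
    intro D hD
    rw [hPP, mem_filter] at hD
    exact hD.2
  have hPPc : ∀ D ∈ PP, D.card ≤ k * L := by
    intro D hD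
    have h1 : (D.card : ℝ) ≤ k * (L : ℝ) := card_le_deg fun i => by exact_mod_cast (hPPm D hD).1 i
    exact_mod_cast h1
  -- the covering
  have hcov : ∀ X Y : Fam u k, ind ((k : ℝ) ^ 2 / 4 ≤ ∑ d, score J nx query t X Y d) ≤
      ∑ v : Adv, 1 * ind (Dv v X ∈ PP ∧
        nErr (Dv v X) (fun d => query d (dec t (enc t (ct v X d)))) X Y ≤ (Dv v X).card / 1000 ∧
        2 * nInt (Dv v X) X Y ≤ (Dv v X).card) := by
    intro X Y
    by_cases hXY : (k : ℝ) ^ 2 / 4 ≤ ∑ d, score J nx query t X Y d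
    · rw [ind_true hXY]
      obtain ⟨v, hv1, hv2, hv3, hv4⟩ := hmain X Y hXY
      have hvD : Dv v X ⊆ D v X := by rw [hDv]; exact filter_subset _ _
      have hstop : ∀ d ∈ Dv v X, Stops J nx t X Y d := by
        intro d hd
        have h1 : d ∈ D v X ∧ nx d X (ct v X d) = none := by
          rw [hDv] at hd
          exact mem_filter.1 hd
        unfold Stops
        rw [← hv4 d h1.1]
        exact h1.2
      have hsum : ∑ d ∈ D v X, score J nx query t X Y d =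
          ∑ d ∈ Dv v X, score J nx query t X Y d := by
        symm
        refine sum_subset hvD fun d hd hd' => ?_
        have h1 : ¬ Stops J nx t X Y d := by
          intro h2
          refine hd' ?_
          rw [hDv]
          refine mem_filter.2 ⟨hd, ?_⟩
          rw [hv4 d hd]
          exact h2
        unfold score
        rw [ind_false h1, ind_false fun h => h1 h.1, ind_false fun h => h1 h.1]
        ring
      rw [hsum, sum_score (Dv v X) hstop, ← hm0] at hv3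
      have hne : nErr (Dv v X) (fun d => query d (tr J nx X Y d t)) X Y =
          nErr (Dv v X) (fun d => query d (dec t (enc t (ct v X d)))) X Y := by
        refine nErr_congr (fun d hd => ?_) X Y
        rw [dec_enc (hlen v X d), hv4 d (hvD hd)]
      rw [hne] at hv3
      obtain ⟨e, he⟩ : ∃ e, e =
        nErr (Dv v X) (fun d => query d (dec t (enc t (ct v X d)))) X Y := ⟨_, rfl⟩
      rw [← he] at hv3
      have he0 : (0 : ℝ) ≤ e := Nat.cast_nonneg _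
      have hi0 : (0 : ℝ) ≤ nInt (Dv v X) X Y := Nat.cast_nonneg _
      have hgood : Dv v X ∈ PP ∧
          nErr (Dv v X) (fun d => query d (dec t (enc t (ct v X d)))) X Y ≤
            (Dv v X).card / 1000 ∧ 2 * nInt (Dv v X) X Y ≤ (Dv v X).card := by
        refine ⟨?_, ?_, ?_⟩
        · rw [hPP, mem_filter]
          refine ⟨mem_univ _, fun i => ?_, fun j => ?_, by linarith⟩
          · have h1 : (((D v X).filter fun d => d.1 = i).card : ℝ) ≤ L := hv1 i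
            have h2 : ((D v X).filter fun d => d.1 = i).card ≤ L := by exact_mod_cast h1
            exact (card_le_card (filter_subset_filter _ hvD)).trans h2
          · have h1 : (((D v X).filter fun d => d.2 = j).card : ℝ) ≤ L := hv2 j
            have h2 : ((D v X).filter fun d => d.2 = j).card ≤ L := by exact_mod_cast h1
            exact (card_le_card (filter_subset_filter _ hvD)).trans h2
        · rw [← he, Nat.le_div_iff_mul_le (by norm_num)]
          have h1 : (e : ℝ) * 1000 ≤ (Dv v X).card := by linarith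
          exact_mod_cast h1
        · have h1 : 2 * (nInt (Dv v X) X Y : ℝ) ≤ (Dv v X).card := by linarith
          exact_mod_cast h1
      refine le_trans (le_of_eq ?_) (single_le_sum (f := fun v : Adv => 1 * ind (Dv v X ∈ PP ∧
        nErr (Dv v X) (fun d => query d (dec t (enc t (ct v X d)))) X Y ≤ (Dv v X).card / 1000 ∧
        2 * nInt (Dv v X) X Y ≤ (Dv v X).card))
        (fun v _ => mul_nonneg zero_le_one (ind_nonneg _)) (mem_univ v))
      rw [one_mul, ind_true hgood]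
    · rw [ind_false hXY]
      exact sum_nonneg fun v _ => mul_nonneg zero_le_one (ind_nonneg _)
  -- one advice
  have hq2 : 2 ≤ q := by
    rw [hq']
    calc 2 ≤ 8000 * 1 * 1 := by norm_num
      _ ≤ 8000 * 8 ^ t * Z := by gcongr
  have hq2R : (2 : ℝ) ≤ q := by exact_mod_cast hq2
  obtain ⟨δ, hδ⟩ : ∃ δ : ℝ, δ = 1 / ((q : ℝ) - 1) := ⟨_, rfl⟩
  have hq1 : (0 : ℝ) < (q : ℝ) - 1 := by linarith
  have hδ0 : 0 < δ := by rw [hδ]; positivity
  have hpq : (1 + δ).HolderConjugate q := by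
    rw [Real.holderConjugate_iff]
    refine ⟨by linarith, ?_⟩
    rw [hδ]
    field_simp
    ring
  obtain ⟨K, hK⟩ : ∃ K : ℝ, K = (2 : ℝ) ^ (Z * (k * L)) := ⟨_, rfl⟩
  have hcardK : (Fintype.card (Σ D : PP, ((D.1 → (Fin t → Option (Fin (2 ^ w)))) ×
      (D.1 → Fin (2 ^ b)))) : ℝ) ≤ K := by
    have h1 := card_sigma_le (b := b) (E := Fin t → Option (Fin (2 ^ w))) PP hPPc
    have h2 : ((k * k + 1) * (Fintype.card (Fin t → Option (Fin (2 ^ w))) * 2 ^ b)) ^ (k * L) ≤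
        2 ^ (Z * (k * L)) := by
      rw [pow_mul 2 Z]
      refine Nat.pow_le_pow_left ?_ _
      rw [Fintype.card_fun, Fintype.card_option, Fintype.card_fin, Fintype.card_fin]
      have h3 : k * k + 1 ≤ 2 ^ (2 * l + 1) := by
        have h4 : k * k ≤ 2 ^ l * 2 ^ l := Nat.mul_le_mul hkl hkl
        have h5 : (2 : ℕ) ^ (2 * l + 1) = 2 * (2 ^ l * 2 ^ l) := by
          rw [pow_succ, pow_mul']
          ring
        have h6 : 1 ≤ 2 ^ l * 2 ^ l := Nat.mul_pos (by positivity) (by positivity)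
        omega
      have h4 : (2 ^ w + 1) ^ t ≤ 2 ^ ((w + 1) * t) := by
        rw [pow_mul 2 (w + 1)]
        refine Nat.pow_le_pow_left ?_ _
        have h5 : 1 ≤ 2 ^ w := Nat.one_le_two_pow
        rw [pow_succ]
        omega
      calc (k * k + 1) * ((2 ^ w + 1) ^ t * 2 ^ b)
          ≤ 2 ^ (2 * l + 1) * (2 ^ ((w + 1) * t) * 2 ^ b) :=
            Nat.mul_le_mul h3 (Nat.mul_le_mul_right _ h4)
        _ = 2 ^ Z := by
            rw [← pow_add, ← pow_add, hZ]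
            congr 1
            unfold ZP
            ring
    rw [hK]
    exact_mod_cast h1.trans h2
  have hone : ∀ v : Adv, EE α (fun X Y => ind (Dv v X ∈ PP ∧
        nErr (Dv v X) (fun d => query d (dec t (enc t (ct v X d)))) X Y ≤ (Dv v X).card / 1000 ∧
        2 * nInt (Dv v X) X Y ≤ (Dv v X).card)) ≤ (2 : ℝ) ^ (-(m0 / 250)) * K ^ δ := by
    intro v
    exact one_advice u k b L q α δ m0 K (Dv v) (fun X d => enc t (ct v X d))
      (fun d e => query d (dec t e)) (fun d e => hq _ _) PP (fun D hD => (hPPm D hD).1)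
      (fun D hD => (hPPm D hD).2.1) (fun D hD => (hPPm D hD).2.2) hα0 hα1 hδ0 hq2 hpq hαq hρ hcardK
  -- summation
  have hfin : EE α (fun X Y => ind ((k : ℝ) ^ 2 / 4 ≤ ∑ d, score J nx query t X Y d)) ≤
      (Fintype.card Adv : ℝ) * ((2 : ℝ) ^ (-(m0 / 250)) * K ^ δ) := by
    refine (EE_mono hα0.le hα1 hcov).trans ?_
    rw [Pool.Agent.Y85.OJ.EE_sum]
    calc ∑ v : Adv, 1 * EE α (fun X Y => ind (Dv v X ∈ PP ∧
        nErr (Dv v X) (fun d => query d (dec t (enc t (ct v X d)))) X Y ≤ (Dv v X).card / 1000 ∧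
        2 * nInt (Dv v X) X Y ≤ (Dv v X).card))
        ≤ ∑ _v : Adv, (2 : ℝ) ^ (-(m0 / 250)) * K ^ δ := by
          refine sum_le_sum fun v _ => ?_
          rw [one_mul]
          exact hone v
      _ = _ := by rw [sum_const, card_univ, nsmul_eq_mul]
  -- the number of advices
  have hadv : (Fintype.card Adv : ℝ) ≤ (2 : ℝ) ^ (W * (n * t)) := by
    have h1 : s * (k * k) * 2 ^ w + 1 ≤ 2 ^ W := by
      have h2 : (s : ℝ) ≤ 4 * τ * (k * k) := by
        have h3 : (s : ℝ) ≤ (y * k) * s := by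
          have : (0 : ℝ) ≤ s := Nat.cast_nonneg _
          nlinarith
        have h4 : (y * s) * k ≤ 4 * (k * τ) * k := mul_le_mul_of_nonneg_right hys hk0.le
        linarith
      have h3 : s ≤ 4 * τ * (k * k) := by exact_mod_cast h2
      have h4 : k * k ≤ 2 ^ l * 2 ^ l := Nat.mul_le_mul hkl hkl
      have h5 : 4 * τ ≤ 2 ^ (τ + 1) := by
        have := two_mul_le_two_pow (n := τ) (by omega)
        rw [pow_succ]
        omega
      have h6 : s * (k * k) * 2 ^ w ≤ 2 ^ (4 * l + w + τ + 1) := by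
        calc s * (k * k) * 2 ^ w ≤ (2 ^ (τ + 1) * (2 ^ l * 2 ^ l)) * (2 ^ l * 2 ^ l) * 2 ^ w := by
              refine Nat.mul_le_mul_right _ (Nat.mul_le_mul ?_ h4)
              exact h3.trans (Nat.mul_le_mul h5 h4)
          _ = 2 ^ (4 * l + w + τ + 1) := by
              rw [← pow_add, ← pow_add, ← pow_add, ← pow_add]
              congr 1
              ring
      have h7 : W = (4 * l + w + τ + 1) + 1 := by
        rw [hW, hτ]
        unfold YP
        ring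
      rw [h7, pow_succ]
      have h8 : 1 ≤ 2 ^ (4 * l + w + τ + 1) := Nat.one_le_two_pow
      omega
    have h2 : Fintype.card Adv ≤ 2 ^ (W * (n * t)) := by
      rw [pow_mul]
      exact hc.trans (Nat.pow_le_pow_left h1 _)
    exact_mod_cast h2
  -- the numerical inequality
  have hex : (W : ℝ) * (n * t) + Z * (k * L) * δ + 5 ≤ m0 / 250 := by
    rw [hδ, hm0]
    exact numeric ht hk (by omega) (by omega) hZ1 hL' hq' hn
  calc EE α (fun X Y => ind ((k : ℝ) ^ 2 / 4 ≤ ∑ d, score J nx query t X Y d))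
      ≤ (Fintype.card Adv : ℝ) * ((2 : ℝ) ^ (-(m0 / 250)) * K ^ δ) := hfin
    _ ≤ (2 : ℝ) ^ (W * (n * t)) * ((2 : ℝ) ^ (-(m0 / 250)) * K ^ δ) :=
        mul_le_mul_of_nonneg_right hadv (by rw [hK]; positivity)
    _ = (2 : ℝ) ^ ((W : ℝ) * (n * t) + Z * (k * L) * δ - m0 / 250) := by
        rw [hK, ← Real.rpow_natCast 2 (W * (n * t)), ← Real.rpow_natCast 2 (Z * (k * L)),
          ← Real.rpow_mul (by norm_num), ← Real.rpow_add (by norm_num),
          ← Real.rpow_add (by norm_num)]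
        congr 1
        push_cast
        ring
    _ ≤ (2 : ℝ) ^ (-5 : ℝ) := Real.rpow_le_rpow_of_exponent_le (by norm_num) (by linarith)
    _ = 1 / 32 := by
        rw [Real.rpow_neg (by norm_num), show (5 : ℝ) = ((5 : ℕ) : ℝ) by norm_num,
          Real.rpow_natCast]
        norm_num

end Pool.Agent.V8H11.JP
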