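import Pool.Agent.V8H11.JP.Ub3
import Pool.Agent.Y606.OJ.Leaf

set_option autoImplicit false

/-!
# The probability of few errors for a fixed advice
-/

namespace Pool.Agent.V8H11.JP

open Finset
open Pool.Agent.Y516.OJ
open Pool.Agent.Y85.OJ (EE_nonneg ind_true ind_false ind_nonneg EE_mono EE_one)

/-- the factor in front of the sum -/
theorem prefac (m : ℕ) : (2 : ℝ) ^ (m / 1000 : ℕ) *
    ((1 + 197 / 200) / 2 : ℝ) ^ ((m : ℝ) / 2 - (m / 1000 : ℕ)) ≤ (2 : ℝ) ^ (-((m : ℝ) / 250)) := by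
  have hr : ((m / 1000 : ℕ) : ℝ) ≤ (m : ℝ) / 1000 := by
    have := @Nat.cast_div_le ℝ _ _ _ m 1000
    simpa using this
  have hm : (0 : ℝ) ≤ m := Nat.cast_nonneg m
  have h1 : (2 : ℝ) ^ (m / 1000 : ℕ) ≤ (2 : ℝ) ^ ((m : ℝ) / 1000) := by
    rw [← Real.rpow_natCast]
    exact Real.rpow_le_rpow_of_exponent_le (by norm_num) hr
  have h2 : ((1 + 197 / 200) / 2 : ℝ) ^ ((m : ℝ) / 2 - (m / 1000 : ℕ)) ≤
      (397 / 400 : ℝ) ^ ((499 : ℝ) * (m / 1000)) := by
    rw [show ((1 + 197 / 200) / 2 : ℝ) = 397 / 400 by norm_num]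
    refine Real.rpow_le_rpow_of_exponent_ge (by norm_num) (by norm_num) ?_
    linarith
  have h3 : (397 / 400 : ℝ) ^ ((499 : ℝ) * (m / 1000)) ≤ (2 : ℝ) ^ (-(5 * ((m : ℝ) / 1000))) := by
    rw [Real.rpow_mul (by norm_num)]
    have h4 : (397 / 400 : ℝ) ^ (499 : ℝ) ≤ (2 : ℝ) ^ (-5 : ℝ) := by
      have h5 : (397 / 400 : ℝ) ^ (499 : ℝ) = (397 / 400 : ℝ) ^ (499 : ℕ) := by
        rw [← Real.rpow_natCast]
        norm_num
      have h6 : (2 : ℝ) ^ (-5 : ℝ) = 1 / 32 := by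
        rw [Real.rpow_neg (by norm_num)]
        rw [show (5 : ℝ) = ((5 : ℕ) : ℝ) by norm_num, Real.rpow_natCast]
        norm_num
      have h7 : (397 / 400 : ℝ) ^ (100 : ℕ) ≤ 472 / 1000 := by norm_num
      have h8 : (397 / 400 : ℝ) ^ (99 : ℕ) ≤ 476 / 1000 := by norm_num
      rw [h5, h6, show (499 : ℕ) = 100 * 4 + 99 by norm_num, pow_add, pow_mul]
      calc ((397 / 400 : ℝ) ^ 100) ^ 4 * (397 / 400) ^ 99 ≤ (472 / 1000) ^ 4 * (476 / 1000) :=
            mul_le_mul (pow_le_pow_left₀ (by positivity) h7 4) h8 (by positivity) (by positivity)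
        _ ≤ 1 / 32 := by norm_num
    calc ((397 / 400 : ℝ) ^ (499 : ℝ)) ^ ((m : ℝ) / 1000) ≤ ((2 : ℝ) ^ (-5 : ℝ)) ^ ((m : ℝ) / 1000) :=
          Real.rpow_le_rpow (by positivity) h4 (by positivity)
      _ = (2 : ℝ) ^ (-(5 * ((m : ℝ) / 1000))) := by
          rw [← Real.rpow_mul (by norm_num)]
          congr 1
          ring
  calc (2 : ℝ) ^ (m / 1000 : ℕ) * ((1 + 197 / 200) / 2 : ℝ) ^ ((m : ℝ) / 2 - (m / 1000 : ℕ))
      ≤ (2 : ℝ) ^ ((m : ℝ) / 1000) * (2 : ℝ) ^ (-(5 * ((m : ℝ) / 1000))) :=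
        mul_le_mul h1 (h2.trans h3) (by positivity) (by positivity)
    _ = (2 : ℝ) ^ (-((m : ℝ) / 250)) := by
        rw [← Real.rpow_add (by norm_num)]
        congr 1
        ring

theorem nErr_congr {u k : ℕ} {D : Finset (Fin k × Fin k)}
    {p p' : Fin k × Fin k → Prot (Fam u k) (Fam u k)} (h : ∀ d ∈ D, p d = p' d) (X Y : Fam u k) :
    nErr D p X Y = nErr D p' X Y := by
  classical
  unfold nErr
  congr 1
  refine filter_congr fun d hd => ?_
  rw [h d hd]

/-- **One advice.** -/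
theorem one_advice {E : Type} [Fintype E] [Inhabited E] (u k b Δ q : ℕ) (α δ m0 K : ℝ)
    (Dv : Fam u k → Finset (Fin k × Fin k)) (cv : Fam u k → Fin k × Fin k → E)
    (Q : Fin k × Fin k → E → Prot (Fam u k) (Fam u k)) (hQ : ∀ d e, (Q d e).depth ≤ b)
    (PP : Finset (Finset (Fin k × Fin k)))
    (hP1 : ∀ D ∈ PP, ∀ i, (D.filter fun d => d.1 = i).card ≤ Δ)
    (hP2 : ∀ D ∈ PP, ∀ j, (D.filter fun d => d.2 = j).card ≤ Δ)
    (hPm : ∀ D ∈ PP, m0 ≤ (D.card : ℝ)) (hα0 : 0 < α) (hα1 : α ≤ 1) (hδ : 0 < δ) (hq : 2 ≤ q)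
    (hpq : (1 + δ).HolderConjugate q) (hα : α * q * Δ ≤ 4)
    (hρ : Real.exp (-(α ^ 2 * u / 8)) ≤ 197 / 200)
    (hK : (Fintype.card (Σ D : PP, ((D.1 → E) ×
      (D.1 → Fin (2 ^ b)))) : ℝ) ≤ K) :
    EE α (fun X Y => ind (Dv X ∈ PP ∧ nErr (Dv X) (fun d => Q d (cv X d)) X Y ≤
      (Dv X).card / 1000 ∧ 2 * nInt (Dv X) X Y ≤ (Dv X).card)) ≤
      (2 : ℝ) ^ (-(m0 / 250)) * K ^ δ := by
  classical
  -- the protocols
  obtain ⟨pk, hpk⟩ : ∃ pk : ∀ D : PP, (D.1 → E) →
      Fin k × Fin k → Prot (Fam u k) (Fam u k), pk =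
      fun (D : PP) (κ : D.1 → E) (d : Fin k × Fin k) =>
      if h : d ∈ D.1 then Q d (κ ⟨d, h⟩) else Q d default := ⟨_, rfl⟩
  have hpkd : ∀ D κ d, (pk D κ d).depth ≤ b := by
    intro D κ d
    rw [hpk]
    simp only
    split_ifs <;> exact hQ _ _
  have hC : ∀ D : PP, ∀ S ⊆ D.1, ∀ F G : Fam u k → Bool,
      EE α (fun X Y => ind (F X = true) * ind (G Y = true) * ind (∀ d ∈ S, Disj X Y d)) ≤
        (197 / 200) ^ S.card * (EE α fun X Y => ind (F X = true) * ind (G Y = true)) ^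
          (1 / (1 + δ)) := by
    intro D S hS F G
    have h1 := corr (u := u) (S := S) (Δ := Δ) (q := q) (α := α) (p := 1 + δ)
      (fun i => (card_le_card (filter_subset_filter _ hS)).trans (hP1 D D.2 i))
      (fun i => (card_le_card (filter_subset_filter _ hS)).trans (hP2 D D.2 i))
      hα0.le hα1 hq hpq hα F G
    refine h1.trans (mul_le_mul_of_nonneg_right ?_ (Real.rpow_nonneg (EE_nonneg hα0.le hα1
      fun X Y => mul_nonneg (ind_nonneg _) (ind_nonneg _)) _))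
    calc Real.exp (-(α ^ 2 * S.card / 8)) ^ u = Real.exp (-(α ^ 2 * u / 8)) ^ S.card := by
          rw [← Real.exp_nat_mul, ← Real.exp_nat_mul]
          congr 1
          ring
      _ ≤ (197 / 200) ^ S.card := pow_le_pow_left₀ (Real.exp_pos _).le hρ _
  choose P hP0 hPs hPb using fun (D : PP) (κ : D.1 → E) =>
    ub3 Pool.Agent.Y606.OJ.Leaf.leaf u k D.1.card b
      (D.1.card / 1000) α (197 / 200) (1 / (1 + δ)) D (pk D κ)
      (fun X => decide (Dv X = D ∧ ∀ d : D.1, cv X d = κ d))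
      hα0 hα1 rfl (hpkd D κ) (by norm_num) (by norm_num) (hC D)
  -- the sum of the probabilities
  have hAs : ∀ X : Fam u k, ∑ D : PP, ∑ κ : D.1 → E,
      ind (decide (Dv X = D ∧ ∀ d : D.1, cv X d = κ d) = true) ≤ 1 := by
    intro X
    by_cases hX : Dv X ∈ PP
    · obtain ⟨D0, hD0⟩ : ∃ D0 : PP, D0.1 = Dv X := ⟨⟨Dv X, hX⟩, rfl⟩
      rw [sum_eq_single D0]
      · rw [sum_eq_single (fun d : D0.1 => cv X d)]
        · exact le_of_eq (ind_true (by simp [hD0]))
        · intro κ _ hne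
          refine ind_false fun h => hne ?_
          rw [decide_eq_true_iff] at h
          funext d
          exact (h.2 d).symm
        · intro h
          exact absurd (mem_univ _) h
      · intro D _ hne
        refine sum_eq_zero fun κ _ => ind_false fun h => hne ?_
        rw [decide_eq_true_iff] at h
        exact Subtype.ext (h.1.symm.trans hD0.symm)
      · intro h
        exact absurd (mem_univ _) h
    · refine le_trans (le_of_eq ?_) zero_le_one
      refine sum_eq_zero fun D _ => sum_eq_zero fun κ _ => ind_false fun h => hX ?_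
      rw [decide_eq_true_iff] at h
      rw [h.1]
      exact D.2
  have hsum1 : ∑ D : PP, ∑ κ : D.1 → E, ∑ R, P D κ R ≤ 1 := by
    calc ∑ D : PP, ∑ κ : D.1 → E, ∑ R, P D κ R
        ≤ ∑ D : PP, ∑ κ : D.1 → E, EE α (fun X _ =>
          ind (decide (Dv X = D ∧ ∀ d : D.1, cv X d = κ d) = true)) :=
          sum_le_sum fun D _ => sum_le_sum fun κ _ => hPs D κ
      _ = EE α (fun X _ => ∑ D : PP, ∑ κ : D.1 → E,
          ind (decide (Dv X = D ∧ ∀ d : D.1, cv X d = κ d) = true)) := by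
          have h1 := Pool.Agent.Y85.OJ.EE_sum (u := u) (univ : Finset PP) α (fun _ => 1)
            fun D X _ => ∑ κ : D.1 → E,
              ind (decide (Dv X = D ∧ ∀ d : D.1, cv X d = κ d) = true)
          simp only [one_mul] at h1
          rw [h1]
          refine sum_congr rfl fun D _ => ?_
          have h2 := Pool.Agent.Y85.OJ.EE_sum (u := u)
            (univ : Finset (D.1 → E)) α (fun _ => 1)
            fun κ X _ =>
              ind (decide (Dv X = D ∧ ∀ d : D.1, cv X d = κ d) = true)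
          simp only [one_mul] at h2
          rw [h2]
      _ ≤ EE α (fun (_ _ : Fam u k) => 1) := EE_mono hα0.le hα1 fun X _ => hAs X
      _ = 1 := EE_one α u k
  -- Hölder
  have hhol := Pool.Agent.Y606.OJ.Leaf.hol (Σ D : PP, ((D.1 → E) ×
      (D.1 → Fin (2 ^ b)))) (fun z => P z.1 z.2.1 z.2.2) δ hδ
    (fun z => hP0 _ _ _) (by
      rw [Fintype.sum_sigma]
      refine le_trans (le_of_eq ?_) hsum1
      refine sum_congr rfl fun D _ => ?_
      rw [Fintype.sum_prod_type])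
  rw [Fintype.sum_sigma] at hhol
  -- the pointwise bound
  have hpt : ∀ X Y : Fam u k, ind (Dv X ∈ PP ∧ nErr (Dv X) (fun d => Q d (cv X d)) X Y ≤
      (Dv X).card / 1000 ∧ 2 * nInt (Dv X) X Y ≤ (Dv X).card) ≤
      ∑ D : PP, ∑ κ : D.1 → E,
        ind (decide (Dv X = D ∧ ∀ d : D.1, cv X d = κ d) = true) *
        ind (nErr D.1 (pk D κ) X Y ≤
          D.1.card / 1000 ∧
          2 * nInt D.1 X Y ≤ D.1.card) := by
    intro X Y
    have hnn : ∀ (D : PP) (κ : D.1 → E), 0 ≤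
        ind (decide (Dv X = D ∧ ∀ d : D.1, cv X d = κ d) = true) *
        ind (nErr D.1 (pk D κ) X Y ≤
          D.1.card / 1000 ∧
          2 * nInt D.1 X Y ≤ D.1.card) :=
      fun D κ => mul_nonneg (ind_nonneg _) (ind_nonneg _)
    by_cases h : Dv X ∈ PP ∧ nErr (Dv X) (fun d => Q d (cv X d)) X Y ≤
      (Dv X).card / 1000 ∧ 2 * nInt (Dv X) X Y ≤ (Dv X).card
    · obtain ⟨D0, hD0⟩ : ∃ D0 : PP, D0.1 = Dv X := ⟨⟨Dv X, h.1⟩, rfl⟩
      rw [ind_true h]
      have hs1 := single_le_sum (f := fun D : PP => ∑ κ : D.1 → E,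
        ind (decide (Dv X = D ∧ ∀ d : D.1, cv X d = κ d) = true) *
        ind (nErr D.1 (pk D κ) X Y ≤ D.1.card / 1000 ∧ 2 * nInt D.1 X Y ≤ D.1.card))
        (fun D _ => sum_nonneg fun κ _ => hnn D κ) (mem_univ D0)
      have hs2 := single_le_sum (f := fun κ : D0.1 → E =>
        ind (decide (Dv X = D0 ∧ ∀ d : D0.1, cv X d = κ d) = true) *
        ind (nErr D0.1 (pk D0 κ) X Y ≤ D0.1.card / 1000 ∧ 2 * nInt D0.1 X Y ≤ D0.1.card))
        (fun κ _ => hnn D0 κ) (mem_univ (fun d : D0.1 => cv X d))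
      refine le_trans (le_of_eq ?_) (hs2.trans hs1)
      simp only
      rw [ind_true (by simp [hD0]), one_mul]
      symm
      refine ind_true ?_
      have e1 : nErr D0.1 (pk D0 fun d : D0.1 => cv X d) X Y =
          nErr D0.1 (fun d => Q d (cv X d)) X Y := by
        refine nErr_congr (fun d hd => ?_) X Y
        rw [hpk]
        simp only
        rw [dif_pos hd]
      rw [e1, hD0]
      exact h.2
    · rw [ind_false h]
      exact sum_nonneg fun D _ => sum_nonneg fun κ _ => hnn D κ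
  -- the expectations
  have hterm : ∀ (D : PP) (κ : D.1 → E), EE α (fun X Y =>
        ind (decide (Dv X = D ∧ ∀ d : D.1, cv X d = κ d) = true) *
        ind (nErr D.1 (pk D κ) X Y ≤
          D.1.card / 1000 ∧
          2 * nInt D.1 X Y ≤ D.1.card)) ≤
      (2 : ℝ) ^ (-(m0 / 250)) * ∑ R, P D κ R ^ (1 / (1 + δ)) := by
    intro D κ
    refine (hPb D κ).trans (mul_le_mul_of_nonneg_right ?_ (sum_nonneg fun R _ =>
      Real.rpow_nonneg (hP0 D κ R) _))
    refine (prefac _).trans (Real.rpow_le_rpow_of_exponent_le (by norm_num) ?_)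
    have := hPm D D.2
    linarith
  have hK0 : (0 : ℝ) ≤ (Fintype.card (Σ D : PP, ((D.1 → E) ×
      (D.1 → Fin (2 ^ b)))) : ℝ) := Nat.cast_nonneg _
  calc EE α (fun X Y => ind (Dv X ∈ PP ∧ nErr (Dv X) (fun d => Q d (cv X d)) X Y ≤
        (Dv X).card / 1000 ∧ 2 * nInt (Dv X) X Y ≤ (Dv X).card))
      ≤ EE α (fun X Y => ∑ D : PP, ∑ κ : D.1 → E,
        ind (decide (Dv X = D ∧ ∀ d : D.1, cv X d = κ d) = true) *
        ind (nErr D.1 (pk D κ) X Y ≤
          D.1.card / 1000 ∧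
          2 * nInt D.1 X Y ≤ D.1.card)) :=
        EE_mono hα0.le hα1 hpt
    _ = ∑ D : PP, ∑ κ : D.1 → E, EE α (fun X Y =>
        ind (decide (Dv X = D ∧ ∀ d : D.1, cv X d = κ d) = true) *
        ind (nErr D.1 (pk D κ) X Y ≤
          D.1.card / 1000 ∧
          2 * nInt D.1 X Y ≤ D.1.card)) := by
        have h1 := Pool.Agent.Y85.OJ.EE_sum (u := u) (univ : Finset PP) α (fun _ => 1)
          fun D X Y => ∑ κ : D.1 → E,
            ind (decide (Dv X = D ∧ ∀ d : D.1, cv X d = κ d) = true) *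
            ind (nErr D.1 (pk D κ) X Y ≤
              D.1.card / 1000 ∧
              2 * nInt D.1 X Y ≤ D.1.card)
        simp only [one_mul] at h1
        rw [h1]
        refine sum_congr rfl fun D _ => ?_
        have h2 := Pool.Agent.Y85.OJ.EE_sum (u := u)
          (univ : Finset (D.1 → E)) α (fun _ => 1)
          fun κ X Y =>
            ind (decide (Dv X = D ∧ ∀ d : D.1, cv X d = κ d) = true) *
            ind (nErr D.1 (pk D κ) X Y ≤
              D.1.card / 1000 ∧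
              2 * nInt D.1 X Y ≤ D.1.card)
        simp only [one_mul] at h2
        rw [h2]
    _ ≤ ∑ D : PP, ∑ κ : D.1 → E,
        (2 : ℝ) ^ (-(m0 / 250)) * ∑ R, P D κ R ^ (1 / (1 + δ)) :=
        sum_le_sum fun D _ => sum_le_sum fun κ _ => hterm D κ
    _ = (2 : ℝ) ^ (-(m0 / 250)) * ∑ D : PP, ∑ z : (D.1 → E) ×
        (D.1 → Fin (2 ^ b)), P D z.1 z.2 ^ (1 / (1 + δ)) := by
        rw [mul_sum]
        refine sum_congr rfl fun D _ => ?_
        rw [Fintype.sum_prod_type, mul_sum]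
    _ ≤ (2 : ℝ) ^ (-(m0 / 250)) * K ^ δ :=
        mul_le_mul_of_nonneg_left (hhol.trans (Real.rpow_le_rpow hK0 hK hδ.le)) (by positivity)

end Pool.Agent.V8H11.JP
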