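import Mathlib

set_option autoImplicit false

/-!
# Sampling small parts of the cells
-/

namespace Pool.Agent.V8H11.JP

open Finset

section bern

variable {ι : Type} [DecidableEq ι]

/-- the expectation over a random subset of `C` -/
noncomputable def EV (r : ℝ) (C : Finset ι) (h : Finset ι → ℝ) : ℝ :=
  ∑ V ∈ C.powerset, r ^ V.card * (1 - r) ^ (C \ V).card * h V

theorem EV_prod (r : ℝ) (C : Finset ι) (y : ι → ℝ) :
    EV r C (fun V => ∏ c ∈ V, y c) = ∏ c ∈ C, (r * y c + (1 - r)) := by
  rw [prod_add]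
  unfold EV
  refine sum_congr rfl fun V _ => ?_
  rw [prod_mul_distrib, prod_const, prod_const]
  ring

theorem EV_one (r : ℝ) (C : Finset ι) : EV r C (fun _ => 1) = 1 := by
  have h := EV_prod r C (fun _ => 1)
  simp only [prod_const_one] at h
  rw [h]
  exact prod_eq_one fun c _ => by ring

theorem EV_add (r : ℝ) (C : Finset ι) (f g : Finset ι → ℝ) :
    EV r C (fun V => f V + g V) = EV r C f + EV r C g := by
  unfold EV
  rw [← sum_add_distrib]
  exact sum_congr rfl fun V _ => by ring

theorem EV_sub (r : ℝ) (C : Finset ι) (f g : Finset ι → ℝ) :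
    EV r C (fun V => f V - g V) = EV r C f - EV r C g := by
  unfold EV
  rw [← sum_sub_distrib]
  exact sum_congr rfl fun V _ => by ring

theorem EV_mul (r c : ℝ) (C : Finset ι) (f : Finset ι → ℝ) :
    EV r C (fun V => c * f V) = c * EV r C f := by
  unfold EV
  rw [mul_sum]
  exact sum_congr rfl fun V _ => by ring

theorem EV_sum {κ : Type} (r : ℝ) (C : Finset ι) (s : Finset κ) (f : κ → Finset ι → ℝ) :
    EV r C (fun V => ∑ i ∈ s, f i V) = ∑ i ∈ s, EV r C (f i) := by
  unfold EV
  simp only [mul_sum]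
  exact sum_comm

theorem EV_mono {r : ℝ} (h0 : 0 ≤ r) (h1 : r ≤ 1) {C : Finset ι} {f g : Finset ι → ℝ}
    (h : ∀ V ∈ C.powerset, f V ≤ g V) : EV r C f ≤ EV r C g := by
  unfold EV
  refine sum_le_sum fun V hV => mul_le_mul_of_nonneg_left (h V hV) ?_
  have : 0 ≤ 1 - r := by linarith
  positivity

theorem EV_mem (r : ℝ) {C : Finset ι} {c : ι} (hc : c ∈ C) :
    EV r C (fun V => if c ∈ V then 1 else 0) = r := by
  have h := EV_prod r C (fun c' => if c' = c then 0 else 1)
  have h1 : ∏ c' ∈ C, (r * (if c' = c then (0 : ℝ) else 1) + (1 - r)) = 1 - r := by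
    rw [prod_eq_single c]
    · simp
    · intro c' _ hne
      simp [hne]
    · intro h
      exact absurd hc h
  rw [h1] at h
  have h2 : (fun V : Finset ι => if c ∈ V then (1 : ℝ) else 0) =
      fun V => 1 - ∏ c' ∈ V, if c' = c then (0 : ℝ) else 1 := by
    funext V
    by_cases hV : c ∈ V
    · have e1 : ∏ c' ∈ V, (if c' = c then (0 : ℝ) else 1) = 0 := prod_eq_zero hV (by simp)
      rw [if_pos hV, e1, sub_zero]
    · have e1 : ∏ c' ∈ V, (if c' = c then (0 : ℝ) else 1) = 1 := by
        refine prod_eq_one fun c' hc' => if_neg ?_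
        rintro rfl
        exact hV hc'
      rw [if_neg hV, e1, sub_self]
  rw [h2, EV_sub, EV_one, h]
  ring

/-- there is a choice at least as good as the expectation -/
theorem EV_exists {r : ℝ} (h0 : 0 ≤ r) (h1 : r ≤ 1) {C : Finset ι} {f : Finset ι → ℝ} {c : ℝ}
    (h : c ≤ EV r C f) : ∃ V ∈ C.powerset, c ≤ f V := by
  by_contra hne
  push Not at hne
  have hlt : EV r C (fun V => f V - c) < 0 := by
    have h2 : EV r C (fun _ : Finset ι => (1 : ℝ)) = 1 := EV_one r C
    have h3 : ∃ V ∈ C.powerset, 0 < r ^ V.card * (1 - r) ^ (C \ V).card := by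
      by_contra hno
      push Not at hno
      have : EV r C (fun _ : Finset ι => (1 : ℝ)) ≤ 0 := by
        unfold EV
        refine sum_nonpos fun V hV => ?_
        rw [mul_one]
        exact hno V hV
      linarith
    obtain ⟨V₀, hV₀, hpos⟩ := h3
    unfold EV
    have h4 : ∀ V ∈ C.powerset, r ^ V.card * (1 - r) ^ (C \ V).card * (f V - c) ≤ 0 := by
      intro V hV
      have h5 : 0 ≤ 1 - r := by linarith
      exact mul_nonpos_of_nonneg_of_nonpos (by positivity) (by linarith [hne V hV])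
    have h6 : r ^ V₀.card * (1 - r) ^ (C \ V₀).card * (f V₀ - c) < 0 :=
      mul_neg_of_pos_of_neg hpos (by linarith [hne V₀ hV₀])
    exact sum_neg' h4 ⟨V₀, hV₀, h6⟩
  rw [EV_sub] at hlt
  have h7 : EV r C (fun _ : Finset ι => c) = c := by
    have := EV_mul r c C (fun _ => 1)
    rw [EV_one, mul_one] at this
    simpa using this
  rw [h7] at hlt
  linarith

end bern

theorem exp_le_two {x : ℝ} (h0 : 0 ≤ x) (h1 : x ≤ 1) : Real.exp x ≤ 1 + 2 * x := by
  have hconv := convexOn_exp.2 (Set.mem_univ (0 : ℝ)) (Set.mem_univ (1 : ℝ))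
    (show 0 ≤ 1 - x by linarith) h0 (by ring)
  simp only [smul_eq_mul, mul_zero, zero_add, mul_one, Real.exp_zero] at hconv
  have he : Real.exp 1 ≤ 3 := by
    have := Real.exp_one_lt_d9
    linarith
  have h8 : x * Real.exp 1 ≤ x * 3 := mul_le_mul_of_nonneg_left he h0
  linarith

section chunks

variable {k s : ℕ}

/-- the rank of a pair among the pairs with the same label -/
def rk (G : Finset (Fin k × Fin k)) (a : Fin k × Fin k → Fin s) (d : Fin k × Fin k) : ℕ :=
  (G.filter fun e => a e = a d ∧ finProdFinEquiv e < finProdFinEquiv d).card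

/-- the number of the chunk of a pair -/
def ch (θ : ℕ) (G : Finset (Fin k × Fin k)) (a : Fin k × Fin k → Fin s) (d : Fin k × Fin k) :
    Fin s × ℕ := (a d, rk G a d / θ)

theorem rk_lt {G : Finset (Fin k × Fin k)} {a : Fin k × Fin k → Fin s} {d : Fin k × Fin k}
    (hd : d ∈ G) : rk G a d < (G.filter fun e => a e = a d).card := by
  refine card_lt_card ⟨?_, ?_⟩
  · intro e he
    rw [mem_filter] at he ⊢
    exact ⟨he.1, he.2.1⟩
  · intro h
    have h1 := h (mem_filter.2 ⟨hd, rfl⟩)
    exact lt_irrefl _ (mem_filter.1 h1).2.2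

theorem rk_lt_rk {G : Finset (Fin k × Fin k)} {a : Fin k × Fin k → Fin s} {d e : Fin k × Fin k}
    (hd : d ∈ G) (ha : a d = a e) (h : finProdFinEquiv d < finProdFinEquiv e) :
    rk G a d < rk G a e := by
  refine card_lt_card ⟨?_, ?_⟩
  · intro f hf
    rw [mem_filter] at hf ⊢
    exact ⟨hf.1, hf.2.1.trans ha, hf.2.2.trans h⟩
  · intro h1
    have h2 := h1 (mem_filter.2 ⟨hd, ha, h⟩)
    exact lt_irrefl _ (mem_filter.1 h2).2.2

theorem ch_card {θ : ℕ} (hθ : 1 ≤ θ) (G : Finset (Fin k × Fin k)) (a : Fin k × Fin k → Fin s)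
    (c : Fin s × ℕ) : (G.filter fun d => ch θ G a d = c).card ≤ θ := by
  have h1 : ((G.filter fun d => ch θ G a d = c).image (rk G a)).card =
      (G.filter fun d => ch θ G a d = c).card := by
    refine card_image_of_injOn ?_
    intro d hd e he hde
    rw [mem_coe, mem_filter] at hd he
    have hae : a d = a e := by
      have h2 := congrArg Prod.fst (hd.2.trans he.2.symm)
      exact h2
    by_contra hne
    rcases lt_trichotomy (finProdFinEquiv d) (finProdFinEquiv e) with h | h | h
    · exact absurd hde (rk_lt_rk hd.1 hae h).ne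
    · exact hne (finProdFinEquiv.injective h)
    · exact absurd hde (rk_lt_rk he.1 hae.symm h).ne'
  rw [← h1]
  have h2 : ((G.filter fun d => ch θ G a d = c).image (rk G a)) ⊆
      Ico (θ * c.2) (θ * c.2 + θ) := by
    intro n hn
    obtain ⟨d, hd, rfl⟩ := mem_image.1 hn
    have h3 : rk G a d / θ = c.2 := congrArg Prod.snd (mem_filter.1 hd).2
    rw [mem_Ico, ← h3]
    refine ⟨Nat.mul_div_le _ _, ?_⟩
    have h4 := Nat.lt_mul_div_succ (rk G a d) (show 0 < θ by omega)
    rw [Nat.mul_add, mul_one] at h4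
    exact h4
  refine (card_le_card h2).trans ?_
  rw [Nat.card_Ico]
  omega

theorem ch_count {θ : ℕ} (hθ : 1 ≤ θ) (G : Finset (Fin k × Fin k)) (a : Fin k × Fin k → Fin s) :
    ((G.image (ch θ G a)).card : ℝ) ≤ s + (G.card : ℝ) / θ := by
  have hθ0 : (0 : ℝ) < θ := by exact_mod_cast (show 0 < θ by omega)
  have h1 : (G.image (ch θ G a)).card =
      ∑ c : Fin s, ((G.image (ch θ G a)).filter fun z => z.1 = c).card :=
    card_eq_sum_card_fiberwise fun _ _ => mem_coe.2 (mem_univ _)
  have h2 : G.card = ∑ c : Fin s, (G.filter fun d => a d = c).card :=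
    card_eq_sum_card_fiberwise fun _ _ => mem_coe.2 (mem_univ _)
  have h3 : ∀ c : Fin s, ((G.image (ch θ G a)).filter fun z => z.1 = c).card ≤
      (G.filter fun d => a d = c).card / θ + 1 := by
    intro c
    have h4 : ((G.image (ch θ G a)).filter fun z => z.1 = c).card =
        (((G.image (ch θ G a)).filter fun z => z.1 = c).image Prod.snd).card := by
      rw [card_image_of_injOn]
      intro x hx y hy hxy
      rw [mem_coe, mem_filter] at hx hy
      exact Prod.ext (hx.2.trans hy.2.symm) hxy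
    rw [h4]
    have h5 : (((G.image (ch θ G a)).filter fun z => z.1 = c).image Prod.snd) ⊆
        range ((G.filter fun d => a d = c).card / θ + 1) := by
      intro n hn
      obtain ⟨z, hz, rfl⟩ := mem_image.1 hn
      rw [mem_filter, mem_image] at hz
      obtain ⟨⟨d, hd, rfl⟩, hz2⟩ := hz
      have h6 := rk_lt (a := a) hd
      have h7 : a d = c := hz2
      rw [h7] at h6
      rw [mem_range]
      exact Nat.lt_succ_of_le (Nat.div_le_div_right h6.le)
    exact (card_le_card h5).trans (by rw [card_range])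
  calc ((G.image (ch θ G a)).card : ℝ)
      = ∑ c : Fin s, (((G.image (ch θ G a)).filter fun z => z.1 = c).card : ℝ) := by
        rw [h1]
        push_cast
        rfl
    _ ≤ ∑ c : Fin s, (((G.filter fun d => a d = c).card : ℝ) / θ + 1) := by
        refine sum_le_sum fun c _ => ?_
        calc (((G.image (ch θ G a)).filter fun z => z.1 = c).card : ℝ)
            ≤ (((G.filter fun d => a d = c).card / θ + 1 : ℕ) : ℝ) := by exact_mod_cast h3 c
          _ ≤ _ := by
              push_cast
              have := @Nat.cast_div_le ℝ _ _ _ (G.filter fun d => a d = c).card θ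
              linarith
    _ = s + (G.card : ℝ) / θ := by
        rw [sum_add_distrib, ← sum_div, h2]
        push_cast
        simp
        ring

/-- the pairs of the chunks in `V` -/
def sub (θ : ℕ) (G : Finset (Fin k × Fin k)) (a : Fin k × Fin k → Fin s)
    (V : Finset (Fin s × ℕ)) : Finset (Fin k × Fin k) := G.filter fun d => ch θ G a d ∈ V

/-- the probability of a large degree is small -/
theorem deg_tail {θ : ℕ} (hθ : 1 ≤ θ) {G : Finset (Fin k × Fin k)} {a : Fin k × Fin k → Fin s}
    {r D0 : ℝ} (hr0 : 0 ≤ r) (hr1 : r ≤ 1) (Q : Finset (Fin k × Fin k)) (hQ : Q ⊆ G)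
    (hQc : (Q.card : ℝ) ≤ D0) :
    EV r (G.image (ch θ G a)) (fun V =>
      if 4 * r * D0 < ((Q.filter fun d => ch θ G a d ∈ V).card : ℝ) then 1 else 0) ≤
      Real.exp (-(2 * r * D0 / θ)) := by
  classical
  have hθ0 : (0 : ℝ) < θ := by exact_mod_cast (show 0 < θ by omega)
  obtain ⟨C, hC⟩ : ∃ C, C = G.image (ch θ G a) := ⟨_, rfl⟩
  rw [← hC]
  obtain ⟨n, hn⟩ : ∃ n : Fin s × ℕ → ℝ, n = fun c =>
    ((Q.filter fun d => ch θ G a d = c).card : ℝ) := ⟨_, rfl⟩
  have hn0 : ∀ c, 0 ≤ n c := fun c => by rw [hn]; exact Nat.cast_nonneg _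
  have hn1 : ∀ c, n c ≤ θ := by
    intro c
    rw [hn]
    have h1 : (Q.filter fun d => ch θ G a d = c).card ≤ θ := by
      refine le_trans (card_le_card ?_) (ch_card hθ G a c)
      intro d hd
      rw [mem_filter] at hd ⊢
      exact ⟨hQ hd.1, hd.2⟩
    show ((Q.filter fun d => ch θ G a d = c).card : ℝ) ≤ θ
    exact_mod_cast h1
  have hsum : ∀ V : Finset (Fin s × ℕ), ((Q.filter fun d => ch θ G a d ∈ V).card : ℝ) =
      ∑ c ∈ V, n c := by
    intro V
    have h1 : (Q.filter fun d => ch θ G a d ∈ V).card =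
        ∑ c ∈ V, ((Q.filter fun d => ch θ G a d ∈ V).filter fun d => ch θ G a d = c).card :=
      card_eq_sum_card_fiberwise fun d hd => by
        rw [mem_coe, mem_filter] at hd
        exact mem_coe.2 hd.2
    rw [h1, hn]
    push_cast
    refine sum_congr rfl fun c hc => ?_
    congr 2
    ext d
    simp only [mem_filter]
    constructor
    · rintro ⟨⟨h2, _⟩, h3⟩
      exact ⟨h2, h3⟩
    · rintro ⟨h2, h3⟩
      exact ⟨⟨h2, h3 ▸ hc⟩, h3⟩
  have hsC : ∑ c ∈ C, n c = Q.card := by
    rw [← hsum C, hC]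
    congr 2
    refine filter_true_of_mem fun d hd => mem_image_of_mem _ (hQ hd)
  -- exponential moment
  have h1 : EV r C (fun V =>
      if 4 * r * D0 < ((Q.filter fun d => ch θ G a d ∈ V).card : ℝ) then 1 else 0) ≤
      EV r C (fun V => Real.exp (-(4 * r * D0 / θ)) * ∏ c ∈ V, Real.exp (n c / θ)) := by
    refine EV_mono hr0 hr1 fun V _ => ?_
    rw [← Real.exp_sum, ← Real.exp_add, ← sum_div, ← hsum V]
    split_ifs with h2
    · rw [← Real.exp_zero]
      apply Real.exp_le_exp.2
      have h3 : 4 * r * D0 / θ ≤ ((Q.filter fun d => ch θ G a d ∈ V).card : ℝ) / θ :=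
        div_le_div_of_nonneg_right h2.le hθ0.le
      linarith
    · exact (Real.exp_pos _).le
  refine h1.trans ?_
  rw [EV_mul, EV_prod]
  have h4 : ∏ c ∈ C, (r * Real.exp (n c / θ) + (1 - r)) ≤ ∏ c ∈ C, Real.exp (2 * r * (n c / θ)) := by
    refine prod_le_prod (fun c _ => ?_) fun c _ => ?_
    · have : 0 ≤ 1 - r := by linarith
      positivity
    · have h5 : n c / θ ≤ 1 := by
        rw [div_le_one hθ0]
        exact hn1 c
      have h6 := exp_le_two (div_nonneg (hn0 c) hθ0.le) h5
      have h7 := Real.add_one_le_exp (2 * r * (n c / θ))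
      have h8 : r * Real.exp (n c / θ) ≤ r * (1 + 2 * (n c / θ)) := mul_le_mul_of_nonneg_left h6 hr0
      linarith
  calc Real.exp (-(4 * r * D0 / θ)) * ∏ c ∈ C, (r * Real.exp (n c / θ) + (1 - r))
      ≤ Real.exp (-(4 * r * D0 / θ)) * ∏ c ∈ C, Real.exp (2 * r * (n c / θ)) :=
        mul_le_mul_of_nonneg_left h4 (Real.exp_pos _).le
    _ = Real.exp (-(4 * r * D0 / θ) + 2 * r * (Q.card / θ)) := by
        rw [← Real.exp_sum, ← Real.exp_add, ← mul_sum, ← sum_div, hsC]
    _ ≤ Real.exp (-(2 * r * D0 / θ)) := by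
        apply Real.exp_le_exp.2
        have h9 : (Q.card : ℝ) / θ ≤ D0 / θ := div_le_div_of_nonneg_right hQc hθ0.le
        have h10 : 2 * r * (Q.card / θ) ≤ 2 * r * (D0 / θ) :=
          mul_le_mul_of_nonneg_left h9 (by linarith)
        have h11 : 4 * r * D0 / θ = 2 * (2 * r * (D0 / θ)) := by ring
        have h12 : 2 * r * D0 / θ = 2 * r * (D0 / θ) := by ring
        rw [h11, h12]
        linarith

end chunks

end Pool.Agent.V8H11.JP
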