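import Pool.Agent.V8H11.JP.Samp

set_option autoImplicit false

/-!
# Sampling small parts of the cells: the main lemma
-/

namespace Pool.Agent.V8H11.JP

open Finset

variable {k s : ℕ}

theorem card_le_deg {Q : Finset (Fin k × Fin k)} {D0 : ℝ}
    (h : ∀ i, ((Q.filter fun d => d.1 = i).card : ℝ) ≤ D0) : (Q.card : ℝ) ≤ k * D0 := by
  have h1 : Q.card = ∑ i : Fin k, (Q.filter fun d => d.1 = i).card :=
    card_eq_sum_card_fiberwise fun _ _ => mem_coe.2 (mem_univ _)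
  rw [h1]
  push_cast
  calc ∑ i : Fin k, ((Q.filter fun d => d.1 = i).card : ℝ) ≤ ∑ _i : Fin k, D0 :=
        sum_le_sum fun i _ => h i
    _ = k * D0 := by simp

theorem sum_le_card {Q : Finset (Fin k × Fin k)} {ψ : Fin k × Fin k → ℝ} (hψ : ∀ d, ψ d ≤ 1) :
    ∑ d ∈ Q, ψ d ≤ Q.card := by
  calc ∑ d ∈ Q, ψ d ≤ ∑ _d ∈ Q, (1 : ℝ) := sum_le_sum fun d _ => hψ d
    _ = Q.card := by simp

/-- **The sampling lemma.** -/
theorem sample (hk : 1 ≤ k) (G : Finset (Fin k × Fin k)) (a : Fin k × Fin k → Fin s)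
    (ψ : Fin k × Fin k → ℝ) (D0 r κ τ : ℝ) (θ : ℕ) (hψ : ∀ d, ψ d ≤ 1)
    (hd1 : ∀ i, ((G.filter fun d => d.1 = i).card : ℝ) ≤ D0)
    (hd2 : ∀ j, ((G.filter fun d => d.2 = j).card : ℝ) ≤ D0)
    (hκ : 0 < κ) (hD0 : 0 < D0) (hG : κ * k * D0 ≤ ∑ d ∈ G, ψ d) (hr0 : 0 < r) (hr1 : r ≤ 1)
    (hτ0 : 0 < τ) (hθ : 1 ≤ θ) (hrs : r * s ≤ k * τ) (hτ : 8 * k * Real.exp (-(2 * τ)) ≤ r * κ)
    (hθ1 : θ * τ ≤ r * D0) (hθ2 : r * D0 ≤ 2 * θ * τ) :
    ∃ V : Finset (Fin s × ℕ), V ⊆ G.image (ch θ G a) ∧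
      (∀ i, (((sub θ G a V).filter fun d => d.1 = i).card : ℝ) ≤ 4 * r * D0) ∧
      (∀ j, (((sub θ G a V).filter fun d => d.2 = j).card : ℝ) ≤ 4 * r * D0) ∧
      κ / 8 * k * (4 * r * D0) ≤ ∑ d ∈ sub θ G a V, ψ d ∧
      (V.card : ℝ) ≤ 48 * k * τ / κ := by
  classical
  have hkR : (1 : ℝ) ≤ k := by exact_mod_cast hk
  have hk0 : (0 : ℝ) < k := by linarith
  have hθ0 : (0 : ℝ) < θ := by exact_mod_cast (show 0 < θ by omega)
  have hs : (1 : ℝ) ≤ s := by
    have h1 := (a (⟨0, hk⟩, ⟨0, hk⟩)).2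
    have h2 : 1 ≤ s := by omega
    exact_mod_cast h2
  obtain ⟨C, hC⟩ : ∃ C, C = G.image (ch θ G a) := ⟨_, rfl⟩
  obtain ⟨Ψ, hΨ⟩ : ∃ Ψ : ℝ, Ψ = ∑ d ∈ G, ψ d := ⟨_, rfl⟩
  have hΨ0 : 0 < Ψ := by
    rw [hΨ]
    exact lt_of_lt_of_le (by positivity) hG
  have hGc : (G.card : ℝ) ≤ k * D0 := card_le_deg hd1
  -- the number of chunks
  obtain ⟨B, hB⟩ : ∃ B : ℝ, B = s + k * D0 / θ := ⟨_, rfl⟩
  have hB0 : 0 < B := by rw [hB]; positivity
  have hCB : (C.card : ℝ) ≤ B := by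
    rw [hC, hB]
    have h1 := ch_count hθ G a
    have h2 : (G.card : ℝ) / θ ≤ k * D0 / θ := div_le_div_of_nonneg_right hGc hθ0.le
    linarith
  obtain ⟨μ, hμ⟩ : ∃ μ : ℝ, μ = Ψ / (4 * B) := ⟨_, rfl⟩
  have hμ0 : 0 < μ := by rw [hμ]; positivity
  -- the degrees
  obtain ⟨b1, hb1⟩ : ∃ b1 : Fin k → Finset (Fin s × ℕ) → ℝ, b1 = fun i V =>
    if 4 * r * D0 < (((G.filter fun d => d.1 = i).filter fun d => ch θ G a d ∈ V).card : ℝ)
      then 1 else 0 := ⟨_, rfl⟩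
  obtain ⟨b2, hb2⟩ : ∃ b2 : Fin k → Finset (Fin s × ℕ) → ℝ, b2 = fun j V =>
    if 4 * r * D0 < (((G.filter fun d => d.2 = j).filter fun d => ch θ G a d ∈ V).card : ℝ)
      then 1 else 0 := ⟨_, rfl⟩
  have hb10 : ∀ i V, 0 ≤ b1 i V := by
    intro i V
    rw [hb1]
    simp only
    split_ifs <;> norm_num
  have hb20 : ∀ i V, 0 ≤ b2 i V := by
    intro i V
    rw [hb2]
    simp only
    split_ifs <;> norm_num
  have hx : Real.exp (-(2 * r * D0 / θ)) ≤ Real.exp (-(2 * τ)) := by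
    apply Real.exp_le_exp.2
    have h1 : 2 * τ ≤ 2 * r * D0 / θ := by
      rw [le_div_iff₀ hθ0]
      linarith
    linarith
  have hE1 : ∀ i, EV r C (b1 i) ≤ Real.exp (-(2 * τ)) := by
    intro i
    rw [hC, hb1]
    exact (deg_tail hθ hr0.le hr1 _ (filter_subset _ _) (hd1 i)).trans hx
  have hE2 : ∀ i, EV r C (b2 i) ≤ Real.exp (-(2 * τ)) := by
    intro i
    rw [hC, hb2]
    exact (deg_tail hθ hr0.le hr1 _ (filter_subset _ _) (hd2 i)).trans hx
  -- the sum of the weights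
  have hEψ : EV r C (fun V => ∑ d ∈ G, ψ d * (if ch θ G a d ∈ V then 1 else 0)) = r * Ψ := by
    rw [EV_sum, hΨ, mul_sum]
    refine sum_congr rfl fun d hd => ?_
    rw [EV_mul, EV_mem r (by rw [hC]; exact mem_image_of_mem _ hd), mul_comm]
  have hEc : EV r C (fun V => (V.card : ℝ)) = r * C.card := by
    have h1 : EV r C (fun V => (V.card : ℝ)) =
        EV r C (fun V => ∑ c ∈ C, if c ∈ V then (1 : ℝ) else 0) := by
      unfold EV
      refine sum_congr rfl fun V hV => ?_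
      congr 1
      show (V.card : ℝ) = ∑ c ∈ C, if c ∈ V then (1 : ℝ) else 0
      rw [sum_ite_mem, sum_const, nsmul_eq_mul, mul_one,
        inter_eq_right.2 (mem_powerset.1 hV)]
    rw [h1, EV_sum, sum_congr rfl fun c hc => EV_mem r hc, sum_const, nsmul_eq_mul, mul_comm]
  -- the score
  have hSc : r * Ψ / 2 ≤ EV r C (fun V => (∑ d ∈ G, ψ d * (if ch θ G a d ∈ V then 1 else 0)) -
      k * D0 * (∑ i, b1 i V + ∑ j, b2 j V) - μ * V.card) := by
    have h1 : EV r C (fun V => (∑ d ∈ G, ψ d * (if ch θ G a d ∈ V then 1 else 0)) -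
        k * D0 * (∑ i, b1 i V + ∑ j, b2 j V) - μ * V.card) =
        r * Ψ - k * D0 * (∑ i, EV r C (b1 i) + ∑ j, EV r C (b2 j)) - μ * (r * C.card) := by
      rw [EV_sub, EV_sub, hEψ, EV_mul, EV_mul, EV_add, EV_sum, EV_sum, hEc]
    rw [h1]
    have h2 : ∑ i, EV r C (b1 i) + ∑ j, EV r C (b2 j) ≤ 2 * k * Real.exp (-(2 * τ)) := by
      have h3 : ∑ i, EV r C (b1 i) ≤ ∑ _i : Fin k, Real.exp (-(2 * τ)) :=
        sum_le_sum fun i _ => hE1 i
      have h4 : ∑ i, EV r C (b2 i) ≤ ∑ _i : Fin k, Real.exp (-(2 * τ)) :=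
        sum_le_sum fun i _ => hE2 i
      simp only [sum_const, card_univ, Fintype.card_fin, nsmul_eq_mul] at h3 h4
      linarith
    have h5 : k * D0 * (∑ i, EV r C (b1 i) + ∑ j, EV r C (b2 j)) ≤
        k * D0 * (2 * k * Real.exp (-(2 * τ))) := mul_le_mul_of_nonneg_left h2 (by positivity)
    have h6 : k * D0 * (2 * k * Real.exp (-(2 * τ))) =
        k * D0 / 4 * (8 * k * Real.exp (-(2 * τ))) := by ring
    have h7 : k * D0 / 4 * (8 * k * Real.exp (-(2 * τ))) ≤ k * D0 / 4 * (r * κ) :=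
      mul_le_mul_of_nonneg_left hτ (by positivity)
    have h8 : k * D0 / 4 * (r * κ) ≤ r * Ψ / 4 := by
      have h9 : r * (κ * k * D0) ≤ r * Ψ := mul_le_mul_of_nonneg_left (hΨ ▸ hG) hr0.le
      linarith
    have h10 : μ * (r * C.card) ≤ r * Ψ / 4 := by
      have h11 : μ * (r * C.card) ≤ μ * (r * B) :=
        mul_le_mul_of_nonneg_left (mul_le_mul_of_nonneg_left hCB hr0.le) hμ0.le
      have h12 : μ * (r * B) = r * Ψ / 4 := by
        rw [hμ]
        field_simp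
      linarith
    linarith
  obtain ⟨V, hV, hVS⟩ := EV_exists hr0.le hr1 hSc
  have hVC : V ⊆ C := mem_powerset.1 hV
  have hsub : (∑ d ∈ G, ψ d * (if ch θ G a d ∈ V then 1 else 0)) = ∑ d ∈ sub θ G a V, ψ d := by
    unfold sub
    rw [sum_filter]
    refine sum_congr rfl fun d _ => ?_
    split_ifs <;> ring
  rw [hsub] at hVS
  have hle : ∑ d ∈ sub θ G a V, ψ d ≤ (sub θ G a V).card := sum_le_card hψ
  have hsG : ((sub θ G a V).card : ℝ) ≤ k * D0 := by
    refine le_trans ?_ hGc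
    exact_mod_cast card_le_card (filter_subset _ _)
  have hrΨ : 0 < r * Ψ := by positivity
  have hkD : 0 < k * D0 := by positivity
  have hμV : 0 ≤ μ * V.card := by positivity
  have hsb1 : 0 ≤ ∑ i, b1 i V := sum_nonneg fun i _ => hb10 i V
  have hsb2 : 0 ≤ ∑ i, b2 i V := sum_nonneg fun i _ => hb20 i V
  have hlt1 : ∑ i, b1 i V + ∑ j, b2 j V < 1 := by
    by_contra hcon
    push Not at hcon
    have h1 : k * D0 * 1 ≤ k * D0 * (∑ i, b1 i V + ∑ j, b2 j V) :=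
      mul_le_mul_of_nonneg_left hcon hkD.le
    linarith
  have hcomm1 : ∀ i, ((sub θ G a V).filter fun d => d.1 = i) =
      ((G.filter fun d => d.1 = i).filter fun d => ch θ G a d ∈ V) := by
    intro i
    unfold sub
    rw [filter_filter, filter_filter]
    refine filter_congr fun d _ => ?_
    tauto
  have hcomm2 : ∀ j, ((sub θ G a V).filter fun d => d.2 = j) =
      ((G.filter fun d => d.2 = j).filter fun d => ch θ G a d ∈ V) := by
    intro i
    unfold sub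
    rw [filter_filter, filter_filter]
    refine filter_congr fun d _ => ?_
    tauto
  have hD1 : ∀ i, (((sub θ G a V).filter fun d => d.1 = i).card : ℝ) ≤ 4 * r * D0 := by
    intro i
    by_contra hcon
    push Not at hcon
    rw [hcomm1] at hcon
    have h1 : b1 i V = 1 := by
      rw [hb1]
      exact if_pos hcon
    have h2 : b1 i V ≤ ∑ i, b1 i V :=
      single_le_sum (f := fun i => b1 i V) (fun i _ => hb10 i V) (mem_univ i)
    linarith
  have hD2 : ∀ i, (((sub θ G a V).filter fun d => d.2 = i).card : ℝ) ≤ 4 * r * D0 := by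
    intro i
    by_contra hcon
    push Not at hcon
    rw [hcomm2] at hcon
    have h1 : b2 i V = 1 := by
      rw [hb2]
      exact if_pos hcon
    have h2 : b2 i V ≤ ∑ i, b2 i V :=
      single_le_sum (f := fun i => b2 i V) (fun i _ => hb20 i V) (mem_univ i)
    linarith
  have hbad0 : 0 ≤ k * D0 * (∑ i, b1 i V + ∑ j, b2 j V) := by positivity
  refine ⟨V, hC ▸ hVC, hD1, hD2, ?_, ?_⟩
  · have h9 : r * (κ * k * D0) ≤ r * Ψ := mul_le_mul_of_nonneg_left (hΨ ▸ hG) hr0.le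
    linarith
  · have h1 : ((sub θ G a V).card : ℝ) ≤ k * (4 * r * D0) := card_le_deg hD1
    have h2 : μ * V.card ≤ k * (4 * r * D0) := by linarith
    have h3 : (V.card : ℝ) ≤ k * (4 * r * D0) / μ := by
      rw [le_div_iff₀ hμ0]
      linarith
    refine h3.trans ?_
    have h4 : k * (4 * r * D0) / μ = 16 * (r * B) * (k * D0) / Ψ := by
      rw [hμ]
      field_simp
      ring
    rw [h4]
    have h5 : r * B ≤ 3 * (k * τ) := by
      rw [hB, mul_add]
      have h6 : r * (k * D0 / θ) ≤ 2 * (k * τ) := by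
        rw [mul_div_assoc', div_le_iff₀ hθ0]
        have h7 : k * (r * D0) ≤ k * (2 * θ * τ) := mul_le_mul_of_nonneg_left hθ2 hk0.le
        linarith
      linarith
    rw [div_le_div_iff₀ hΨ0 hκ]
    have h6 : 16 * (r * B) * (k * D0) * κ ≤ 16 * (3 * (k * τ)) * (κ * k * D0) := by
      have h7 : 0 ≤ k * D0 * κ := by positivity
      have h8 : 16 * (r * B) * (k * D0 * κ) ≤ 16 * (3 * (k * τ)) * (k * D0 * κ) :=
        mul_le_mul_of_nonneg_right (by linarith) h7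
      linarith
    have h7 : 16 * (3 * (k * τ)) * (κ * k * D0) ≤ 16 * (3 * (k * τ)) * Ψ :=
      mul_le_mul_of_nonneg_left (hΨ ▸ hG) (by positivity)
    linarith

end Pool.Agent.V8H11.JP
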